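import Pool.Agent.Lib.MP_a8a7e3_hf.HP
import Pool.Agent.Lib.MP_8c1a1d_lc.Support
import Pool.Agent.Lib.MP_a8a7e3_lc.Defs
import Pool.Agent.Lib.MP_a8a7e3_lc.Mg.G001

section

set_option linter.unusedSectionVars false
set_option linter.unusedVariables false

/-!
# Forced facts about ground model objects
-/

namespace Pool.Agent.HF

open Cardinal Pool.Agent.KM

section

variable {B I K : Type} [Preorder B] [PartialOrder I] [WellFoundedLT I]

/-- A name of a function into a linear order is bounded on a set `A` if all small sets are bounded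
(`possible`). -/
theorem f_bdd (hB : #B ≤ ℵ₁) {X Y : Type} [LinearOrder Y] {κ : Cardinal.{0}} (hκ : ℵ₁ < κ)
    (hY : ∀ Z : Set Y, #Z < κ → ∃ b, ∀ y ∈ Z, y < b) (A : Set X) (hA : #A < κ)
    (g : FunName (Raw B I K) X Y) :
    ∃ b, ∀ x ∈ A, ∀ y r, g.app x y r → y < b := by
  have hκ0 : ℵ₀ ≤ κ := Cardinal.aleph0_lt_aleph_one.le.trans hκ.le
  obtain ⟨b, hb⟩ := hY (⋃ x : A, {y | ∃ r, g.app x.1 y r}) (by
    have h1 : ∀ x : A, #{y | ∃ r, g.app x.1 y r} ≤ ℵ₁ := fun x => possible hB g x.1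
    refine lt_of_le_of_lt ((Cardinal.mk_iUnion_le _).trans (mul_le_mul' le_rfl
      (ciSup_le' h1))) ?_
    exact Cardinal.mul_lt_of_lt hκ0 hA hκ)
  exact ⟨b, fun x hx y r h => hb y (Set.mem_iUnion.2 ⟨⟨x, hx⟩, r, h⟩)⟩

/-- `unc` -/
theorem f_unc (hB : #B ≤ ℵ₁) {Y : Type} [LinearOrder Y] (hl : ℵ₁ < #Y)
    (hY : ∀ Z : Set Y, #Z < #Y → ∃ b, ∀ y ∈ Z, y < b) (p : Raw B I K) :
    (fAll fun g : FunName (Raw B I K) ℕ Y => fEx fun b : Y => fAll fun n : ℕ => fAll fun x : Y =>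
      fImp (g.app n x) (fFact (x < b))) p := by
  intro g q hq
  obtain ⟨b, hb⟩ := f_bdd hB hl hY (Set.univ : Set ℕ) (by
    rw [Cardinal.mk_univ, Cardinal.mk_nat]
    exact Cardinal.aleph0_lt_aleph_one.trans hl) g
  exact ⟨q, le_rfl, b, fun n x r _ hr => hb n trivial x r hr⟩

/-- `reg` -/
theorem f_reg (hB : #B ≤ ℵ₁) {Y : Type} [LinearOrder Y] (hl : ℵ₁ < #Y)
    (hs : ∀ a : Y, #(Set.Iio a) < #Y) (hY : ∀ Z : Set Y, #Z < #Y → ∃ b, ∀ y ∈ Z, y < b)
    (p : Raw B I K) :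
    (fAll fun a : Y => fAll fun g : FunName (Raw B I K) Y Y =>
      fEx fun b : Y => fAll fun x : Y => fImp (fFact (x < a))
      (fAll fun y : Y => fImp (g.app x y) (fFact (y < b)))) p := by
  intro a g q hq
  obtain ⟨b, hb⟩ := f_bdd hB hl hY (Set.Iio a) (hs a) g
  exact ⟨q, le_rfl, b, fun x r _ hx y r' _ hr' => hb x hx y r' hr'⟩

/-- `incr` -/
theorem f_incr (hB : #B ≤ ℵ₁) {X Y : Type} [LinearOrder Y] (hl : ℵ₁ < #Y) (hXY : #X < #Y)
    (hY : ∀ Z : Set Y, #Z < #Y → ∃ b, ∀ y ∈ Z, y < b) (p : Raw B I K) :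
    (fAll fun g : FunName (Raw B I K) X Y => fEx fun b : Y =>
      fAll fun x : X => fAll fun y : Y => fImp (g.app x y) (fFact (y < b))) p := by
  intro g q hq
  obtain ⟨b, hb⟩ := f_bdd hB hl hY (Set.univ : Set X) (by rwa [Cardinal.mk_univ]) g
  exact ⟨q, le_rfl, b, fun x y r _ hr => hb x trivial y r hr⟩

/-- `anti`: for each `ξ` choose `p ξ ≤ p` deciding `f ξ`; take `ℵ₂` many pairwise compatible ones
(`exists_compat`) and apply `hR`. -/
theorem f_anti (hB : #B ≤ ℵ₁) {Ω₂ R : Type} [PartialOrder R] (h₂ : #Ω₂ = ℵ_ 2)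
    (hR : ∀ f : Ω₂ → R, ∃ ξ η, ξ ≠ η ∧ f ξ ≤ f η) (p : Raw B I K) :
    (fAll fun f : FunName (Raw B I K) Ω₂ R => fEx fun z : (Ω₂ × Ω₂) × (R × R) =>
      fAnd (fFact (z.1.1 ≠ z.1.2 ∧ z.2.1 ≤ z.2.2))
        (fAnd (f.app z.1.1 z.2.1) (f.app z.1.2 z.2.2))) p := by
  intro g q hq
  have hch : ∀ ξ : Ω₂, ∃ s b, s ≤ q ∧ g.app ξ b s := fun ξ => by
    obtain ⟨s, hs, b, hb⟩ := g.tot ξ q
    exact ⟨s, b, hs, hb⟩
  choose s b hs hb using hch
  obtain ⟨Y, hY, hcomp⟩ := exists_compat hB h₂ s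
  obtain ⟨e⟩ : Nonempty (Ω₂ ≃ Y) := Cardinal.eq.1 (h₂.trans hY.symm)
  obtain ⟨ξ, η, hne, hle⟩ := hR fun ξ => b (e ξ).1
  obtain ⟨r, hr1, hr2⟩ := hcomp (e ξ).1 (e ξ).2 (e η).1 (e η).2
  refine ⟨r, hr1.trans (hs _), (((e ξ).1, (e η).1), (b (e ξ).1, b (e η).1)), ⟨?_, hle⟩, ?_, ?_⟩
  · exact fun h => hne (e.injective (Subtype.ext h))
  · exact (g.reg _ _).1 _ _ hr1 (hb _)
  · exact (g.reg _ _).1 _ _ hr2 (hb _)

/-- `dir`: the set `Y` of all possible values `t` of `g` with `ρ t ≤ a` has size `≤ ℵ₁`. -/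
theorem f_dir (hB : #B ≤ ℵ₁) {R Y : Type} [PartialOrder R] [LinearOrder Y] (ρ : R → Y)
    (hR : ∀ a, ∀ Z : Set R, #Z ≤ ℵ₁ → (∀ y ∈ Z, ρ y ≤ a) → ∃ t, ρ t ≤ a ∧ ∀ y ∈ Z, y ≤ t)
    (p : Raw B I K) :
    (fAll fun a : Y => fAll fun g : FunName (Raw B I K) ℕ R =>
      fImp (fAll fun n : ℕ => fAll fun t : R => fImp (g.app n t) (fFact (ρ t ≤ a)))
      (fEx fun t : R => fAnd (fFact (ρ t ≤ a))
        (fAll fun n : ℕ => fAll fun s : R => fImp (g.app n s) (fFact (s ≤ t))))) p := by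
  intro a g q hq hyp q' hq'
  obtain ⟨t, ht, hub⟩ := hR a (⋃ n : ℕ, {s | ∃ r, r ≤ q ∧ g.app n s r}) (by
      have h1 : ∀ n : ℕ, #{s | ∃ r, r ≤ q ∧ g.app n s r} ≤ ℵ₁ := fun n =>
        (Cardinal.mk_le_mk_of_subset (fun s (hs : ∃ r, r ≤ q ∧ g.app n s r) => by
          obtain ⟨r, _, hr⟩ := hs
          exact ⟨r, hr⟩)).trans (possible hB g n)
      refine (Cardinal.mk_iUnion_le _).trans ((mul_le_mul' le_rfl (ciSup_le' h1)).trans ?_)
      rw [Cardinal.mk_nat, Cardinal.aleph0_mul_eq Cardinal.aleph0_lt_aleph_one.le])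
    (by
      intro s hs
      obtain ⟨n, r, hr, hs⟩ := Set.mem_iUnion.1 hs
      exact hyp n s r hr hs)
  refine ⟨q', le_rfl, t, ht, fun n s r hr hs => ?_⟩
  exact hub s (Set.mem_iUnion.2 ⟨n, r, hr.trans hq', hs⟩)

end

section

variable {Ω₁ I K : Type} [PartialOrder I] [WellFoundedLT I]

theorem card_col (h : #Ω₁ = ℵ₁) : #(Col Ω₁) ≤ ℵ₁ := by
  have h1 : #(Col Ω₁) ≤ #(List Ω₁) :=
    Cardinal.mk_le_of_injective (f := Col.l) fun a b hab => by
      cases a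
      cases b
      exact congrArg Col.mk hab
  refine h1.trans ((Cardinal.mk_list_le_max Ω₁).trans (max_le ?_ h.le))
  exact Cardinal.aleph0_lt_aleph_one.le

theorem f_seg_getElem {l l' : List Ω₁} (h : l <+: l') {n : ℕ} {a : Ω₁} (ha : l[n]? = some a) :
    l'[n]? = some a := by
  obtain ⟨t, rfl⟩ := h
  rw [List.getElem?_append_left (List.getElem?_eq_some_iff.1 ha).1]
  exact ha

/-- the composition of the generic function with `h` -/
def f_seg_name {X : Type} [Nonempty Ω₁] (h : Ω₁ → X) : FunName (Raw (Col Ω₁) I K) ℕ X where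
  app n η := fEx fun x : Ω₁ => fun r => r.b.l[n]? = some x ∧ h x = η
  reg n η := by
    refine ⟨fun p q hq hp r hr => hp r (hr.trans hq), fun p hp q hq => ?_⟩
    obtain ⟨r, hr, h1⟩ := hp q hq
    obtain ⟨s, hs, h2⟩ := h1 r le_rfl
    exact ⟨s, hs.trans hr, h2⟩
  sv n η η' p h1 h2 := by
    obtain ⟨r, hr, x, hx, hη⟩ := h1 p le_rfl
    obtain ⟨s, hs, x', hx', hη'⟩ := h2 r hr
    have h3 := f_seg_getElem hs.1 hx
    rw [h3] at hx'
    rw [← hη, ← hη', Option.some.inj hx']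
  tot n p := by
    obtain ⟨x₀⟩ := (inferInstance : Nonempty Ω₁)
    obtain ⟨q, hq, hb⟩ := exists_bot p (b := ⟨p.b.l ++ List.replicate (n + 1) x₀⟩)
      (List.prefix_append _ _)
    have hlen : n < q.b.l.length := by
      rw [hb]
      show n < (p.b.l ++ List.replicate (n + 1) x₀).length
      rw [List.length_append, List.length_replicate]
      omega
    refine ⟨q, hq, h (q.b.l[n]'hlen), fun r hr => ⟨r, le_rfl, q.b.l[n]'hlen, ?_, rfl⟩⟩
    exact f_seg_getElem hr.1 (List.getElem?_eq_getElem hlen)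

/-- `seg`: the generic function `ℕ → Ω₁` (read off the bottom coordinate) is onto; compose it with a
ground model map from `Ω₁` onto the elements below `ξ`. -/
theorem f_seg (h₁ : #Ω₁ = ℵ₁) {Ω₂ : Type} [LinearOrder Ω₂] (ξ : Ω₂) (hξ : #(Set.Iio ξ) ≤ ℵ₁)
    (p : Raw (Col Ω₁) I K) :
    (fEx fun g : FunName (Raw (Col Ω₁) I K) ℕ Ω₂ => fAll fun η : Ω₂ => fImp (fFact (η < ξ))
      (fEx fun n : ℕ => g.app n η)) p := by
  have hne : Nonempty Ω₁ := Cardinal.mk_ne_zero_iff.1 (by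
    rw [h₁]
    exact (Cardinal.aleph_pos 1).ne')
  obtain ⟨h, hh⟩ : ∃ h : Ω₁ → Ω₂, ∀ η < ξ, ∃ x, h x = η := by
    rw [← h₁] at hξ
    obtain ⟨e⟩ : Nonempty (Set.Iio ξ ↪ Ω₁) := (Cardinal.le_def _ _).1 hξ
    by_cases hemp : Nonempty (Set.Iio ξ)
    · refine ⟨fun x => (Function.invFun e x).1, fun η hη => ⟨e ⟨η, hη⟩, ?_⟩⟩
      exact congrArg Subtype.val (Function.leftInverse_invFun e.injective ⟨η, hη⟩)
    · exact ⟨fun _ => ξ, fun η hη => absurd ⟨⟨η, hη⟩⟩ hemp⟩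
  intro q hq
  refine ⟨q, le_rfl, f_seg_name h, fun η q₁ hq₁ hη r hr => ?_⟩
  obtain ⟨x, hx⟩ := hh η hη
  obtain ⟨s, hs, hb⟩ := exists_bot r (b := ⟨r.b.l ++ [x]⟩) (List.prefix_append _ _)
  refine ⟨s, hs, r.b.l.length, fun t ht => ⟨t, le_rfl, x, f_seg_getElem ht.1 ?_, hx⟩⟩
  rw [hb]
  show (r.b.l ++ [x])[r.b.l.length]? = some x
  rw [List.getElem?_append_right le_rfl, Nat.sub_self]
  rfl

end

end Pool.Agent.HF
end

section

set_option linter.unusedSectionVars false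
set_option linter.unusedVariables false

/-!
# Increasing sequences of functions of length `ω₂`, under CH

`K n` are well-orders in which all sets of size at most `ℵ₂` are bounded, `Ω₂` is a well-order of
type `ω₂`, and `f : Ω₂ → ∏ n, K n` is increasing modulo finite.
-/

namespace Pool.Agent.HFC

open Cardinal Filter

variable {K : ℕ → Type} [∀ n, LinearOrder (K n)]

/-- `y` is the least element of `X` above `x`. -/
def IsNx {Y : Type} [LinearOrder Y] (X : Set Y) (x y : Y) : Prop :=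
  y ∈ X ∧ x ≤ y ∧ ∀ z ∈ X, x ≤ z → y ≤ z

theorem IsNx.unique {Y : Type} [LinearOrder Y] {X : Set Y} {x y y' : Y} (h : IsNx X x y)
    (h' : IsNx X x y') : y = y' := le_antisymm (h.2.2 y' h'.1 h'.2.1) (h'.2.2 y h.1 h.2.1)

/-- The function `g` is eventually (in `ξ`, and modulo finite) the projection of `f ξ` to `X`. -/
def IsProj {Ω₂ : Type} [LinearOrder Ω₂] (f : Ω₂ → ∀ n, K n) (X : ∀ n, Set (K n))
    (g : ∀ n, K n) : Prop :=
  ∃ ξ₀, ∀ ξ, ξ₀ ≤ ξ → ∀ᶠ n in atTop, IsNx (X n) (f ξ n) (g n)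

/-- Two projections to the same `X` agree modulo finite. -/
theorem IsProj.unique {Ω₂ : Type} [LinearOrder Ω₂] {f : Ω₂ → ∀ n, K n} {X : ∀ n, Set (K n)}
    {g g' : ∀ n, K n} (h : IsProj f X g) (h' : IsProj f X g') : ∀ᶠ n in atTop, g n = g' n := by
  obtain ⟨ξ₀, h⟩ := h
  obtain ⟨ξ₁, h'⟩ := h'
  filter_upwards [h (max ξ₀ ξ₁) (le_max_left _ _), h' (max ξ₀ ξ₁) (le_max_right _ _)] with n h1 h2
  exact h1.unique h2

/-- If `g` is the projection to `X`, `X' ⊆ X`, and `g n ∈ X' n` for all `n`, then `g` is the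
projection to `X'`. -/
theorem IsProj.mono {Ω₂ : Type} [LinearOrder Ω₂] {f : Ω₂ → ∀ n, K n} {X X' : ∀ n, Set (K n)}
    {g : ∀ n, K n} (h : IsProj f X g) (hX : ∀ n, X' n ⊆ X n) (hg : ∀ n, g n ∈ X' n) :
    IsProj f X' g := by
  obtain ⟨ξ₀, h⟩ := h
  refine ⟨ξ₀, fun ξ hξ => ?_⟩
  filter_upwards [h ξ hξ] with n h1
  exact ⟨hg n, h1.2.1, fun z hz hz' => h1.2.2 z (hX n hz) hz'⟩

variable {Ω₂ : Type} [LinearOrder Ω₂] [WellFoundedLT Ω₂] [∀ n, WellFoundedLT (K n)]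

/-- Under CH projections to sets of size at most `ℵ₁` exist.
Let `P ξ n` be the least element of `X n` above `f ξ n`.  There are at most `ℵ₁ ^ ℵ₀ = ℵ₁` functions
in the product of the `X n`, so `P ξ = g` for `ℵ₂` many (so cofinally many) `ξ`; and `P` is weakly
increasing modulo finite. -/
theorem exists_proj (hCH : Cardinal.continuum = ℵ₁)
    (h₂ : Ordinal.type (fun a b : Ω₂ => a < b) = (ℵ_ 2).ord) {f : Ω₂ → ∀ n, K n}
    (hf : ∀ ξ η, ξ < η → ∀ᶠ n in atTop, f ξ n < f η n) (X : ∀ n, Set (K n))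
    (hX : ∀ n, #(X n) ≤ ℵ₁) (hu : ∀ n, ∃ u ∈ X n, ∀ ξ, f ξ n ≤ u) :
    ∃ g : ∀ n, K n, (∀ n, g n ∈ X n) ∧ IsProj f X g := by
  classical
  have hreg : (ℵ_ 2).IsRegular := by
    have h := Cardinal.isRegular_aleph_add_one 1
    have e : (1 : Ordinal.{0}) + 1 = 2 := by norm_num
    rwa [e] at h
  have h12 : (ℵ_ 1 : Cardinal.{0}) < ℵ_ 2 := Cardinal.aleph_lt_aleph.2 (by norm_num)
  have hP : ∀ ξ n, ∃ y : X n, IsNx (X n) (f ξ n) y := by
    intro ξ n
    obtain ⟨u, hu1, hu2⟩ := hu n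
    have hwf : WellFounded ((· < ·) : K n → K n → Prop) := wellFounded_lt
    have hne : ({y | y ∈ X n ∧ f ξ n ≤ y} : Set (K n)).Nonempty := ⟨u, hu1, hu2 ξ⟩
    refine ⟨⟨hwf.min _ hne, (hwf.min_mem _ hne).1⟩, (hwf.min_mem _ hne).1,
      (hwf.min_mem _ hne).2, fun z hz hle => ?_⟩
    exact not_lt.1 (hwf.not_lt_min (s := {y | y ∈ X n ∧ f ξ n ≤ y}) (x := z) ⟨hz, hle⟩)
  choose P hP using hP
  have hCH0 : (Cardinal.continuum : Cardinal.{0}) = ℵ₁ := by
    apply Cardinal.lift_injective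
    rw [Cardinal.lift_continuum, Cardinal.lift_aleph, Ordinal.lift_one]
    exact hCH
  have hcard : #(∀ n, X n) ≤ ℵ₁ := by
    rw [Cardinal.mk_pi]
    calc Cardinal.prod (fun n => #(X n)) ≤ Cardinal.prod (fun _ : ℕ => ℵ₁) :=
          Cardinal.prod_le_prod _ _ hX
      _ = ℵ₁ ^ ℵ₀ := by simp
      _ = ℵ₁ := by rw [← hCH0]; exact Cardinal.continuum_power_aleph0
  have hg : ∃ g : ∀ n, X n, ∀ b, ∃ ξ, b ≤ ξ ∧ P ξ = g := by
    by_contra hne
    push Not at hne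
    choose b hb using hne
    obtain ⟨β, hβ⟩ := Pool.Agent.KM.exists_bound hreg h₂ (Set.range b)
      (Cardinal.mk_range_le.trans_lt (hcard.trans_lt h12))
    exact hb (P β) β (hβ _ ⟨P β, rfl⟩).le rfl
  obtain ⟨g, hg⟩ := hg
  have hmono : ∀ {ξ η : Ω₂}, ξ ≤ η → ∀ᶠ n in atTop, (P ξ n : K n) ≤ P η n := by
    intro ξ η hle
    rcases hle.lt_or_eq with hlt | rfl
    · filter_upwards [hf ξ η hlt] with n hn
      exact (hP ξ n).2.2 _ (hP η n).1 (hn.le.trans (hP η n).2.1)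
    · exact Eventually.of_forall fun n => le_rfl
  refine ⟨fun n => g n, fun n => (g n).2, ?_⟩
  have hne : Nonempty Ω₂ := by
    by_contra hE
    have : IsEmpty Ω₂ := not_nonempty_iff.1 hE
    have h3 := Pool.Agent.KM.card_of_type h₂
    rw [Cardinal.mk_eq_zero] at h3
    exact (Cardinal.aleph_pos 2).ne h3
  obtain ⟨ξ₀, -, h0⟩ := hg (Classical.choice hne)
  refine ⟨ξ₀, fun ξ hξ => ?_⟩
  obtain ⟨ξ₁, hξ1, h1⟩ := hg ξ
  filter_upwards [hmono hξ, hmono hξ1] with n hn hn'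
  rw [h0] at hn
  rw [h1] at hn'
  have e : (g n : K n) = P ξ n := le_antisymm hn hn'
  rw [e]
  exact hP ξ n

/-- There is a stable `X`: the projection to any larger set of size `≤ ℵ₁` is the same modulo finite.
Otherwise build an increasing sequence `X ξ`, `ξ ∈ Ω₁` (type `ω₁`) by recursion,
`X ξ = X₀ ∪ ⋃ η < ξ, Y (X η)`, where `Y X ⊇ X` is a set for which the projection is different from
that for `X`.  Let `Z` be the union of all `X ξ` and `g` the projection to `Z`.  All values of `g` are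
in some `X ξ` (`ℵ₁` is regular), so `g` is the projection to `X ξ` and to `Y (X ξ)`
(`IsProj.mono`), a contradiction. -/
theorem exists_stable (hCH : Cardinal.continuum = ℵ₁)
    (h₂ : Ordinal.type (fun a b : Ω₂ => a < b) = (ℵ_ 2).ord)
    (hK : ∀ n (Z : Set (K n)), #Z ≤ ℵ_ 2 → ∃ b, ∀ z ∈ Z, z < b) {f : Ω₂ → ∀ n, K n}
    (hf : ∀ ξ η, ξ < η → ∀ᶠ n in atTop, f ξ n < f η n) :
    ∃ (X : ∀ n, Set (K n)) (g : ∀ n, K n), (∀ n, #(X n) ≤ ℵ₁) ∧
      (∀ n, ∃ u ∈ X n, ∀ ξ, f ξ n ≤ u) ∧ IsProj f X g ∧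
      ∀ (Y : ∀ n, Set (K n)) (g' : ∀ n, K n), (∀ n, X n ⊆ Y n) → (∀ n, #(Y n) ≤ ℵ₁) →
        IsProj f Y g' → ∀ᶠ n in atTop, g' n = g n := by
  classical
  by_contra hcon
  push Not at hcon
  have hreg : (ℵ₁ : Cardinal.{0}).IsRegular := Cardinal.isRegular_aleph_one
  -- the well-order of type `ω₁`
  let O := (ℵ₁ : Cardinal.{0}).ord.ToType
  have hO : Ordinal.type (fun a b : O => a < b) = (ℵ₁ : Cardinal.{0}).ord := Ordinal.type_toType _
  have hOc : #O = ℵ₁ := KM.card_of_type hO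
  have hOmax : NoMaxOrder O := KM.noMaxOrder_of_type hreg hO
  -- good families
  let G : (∀ n, Set (K n)) → Prop := fun X =>
    (∀ n, #(X n) ≤ ℵ₁) ∧ (∀ n, ∃ u ∈ X n, ∀ ξ, f ξ n ≤ u)
  -- one step
  have hstep : ∀ X : ∀ n, Set (K n), ∃ Y : ∀ n, Set (K n), (∀ n, X n ⊆ Y n) ∧
      (G X → (∀ n, #(Y n) ≤ ℵ₁) ∧ ∃ g g' : ∀ n, K n, IsProj f X g ∧ IsProj f Y g' ∧
        ¬ ∀ᶠ n in atTop, g' n = g n) := by
    intro X
    by_cases hX : G X
    · obtain ⟨g, hg, hgX⟩ := exists_proj hCH h₂ hf X hX.1 hX.2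
      obtain ⟨Y, g', h1, h2, h3, h4⟩ := hcon X g hX.1 hX.2 hgX
      refine ⟨Y, h1, fun _ => ⟨h2, g, g', hgX, h3, ?_⟩⟩
      intro h5
      exact h4 (h5.mono fun n hn => by simpa using hn)
    · exact ⟨X, fun n => le_rfl, fun h => absurd h hX⟩
  choose S hS1 hS2 using hstep
  -- the start
  have hΩ : #Ω₂ = ℵ_ 2 := KM.card_of_type h₂
  have hX0 : ∀ n, ∃ b : K n, ∀ ξ, f ξ n < b := by
    intro n
    obtain ⟨b, hb⟩ := hK n (Set.range fun ξ => f ξ n) (Cardinal.mk_range_le.trans hΩ.le)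
    exact ⟨b, fun ξ => hb _ ⟨ξ, rfl⟩⟩
  choose b hb using hX0
  -- the recursion
  let step : (a : O) → ((c : O) → c < a → (∀ n, Set (K n))) → (∀ n, Set (K n)) :=
    fun a IH n => {b n} ∪ ⋃ c : Set.Iio a, S (IH c.1 c.2) n
  let X : O → (∀ n, Set (K n)) := WellFounded.fix (wellFounded_lt (α := O)) step
  have hX : ∀ a n, X a n = {b n} ∪ ⋃ c : Set.Iio a, S (X c) n := fun a n =>
    congrFun (WellFounded.fix_eq (wellFounded_lt (α := O)) step a) n
  have hone : (1 : Cardinal.{0}) ≤ ℵ₁ := (Cardinal.one_lt_aleph0.trans_le hreg.aleph0_le).le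
  have hunion : ∀ {J : Type} (hJ : #J ≤ ℵ₁) (n : ℕ) (F : J → Set (K n)) (hF : ∀ j, #(F j) ≤ ℵ₁),
      #(({b n} ∪ ⋃ j, F j : Set (K n))) ≤ ℵ₁ := by
    intro J hJ n F hF
    refine (Cardinal.mk_union_le _ _).trans ?_
    refine (add_le_add (b := ℵ₁) (d := ℵ₁) ?_ ?_).trans (Cardinal.add_eq_self hreg.aleph0_le).le
    · rw [Cardinal.mk_singleton]; exact hone
    · refine Cardinal.mk_iUnion_le_sum_mk.trans ?_
      refine (Cardinal.sum_le_sum _ (fun _ => ℵ₁) hF).trans ?_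
      rw [Cardinal.sum_const']
      exact (mul_le_mul' hJ le_rfl).trans (Cardinal.mul_eq_self hreg.aleph0_le).le
  have hGX : ∀ a, G (X a) := by
    intro a
    induction a using WellFoundedLT.induction with
    | ind a ih =>
      refine ⟨fun n => ?_, fun n => ⟨b n, ?_, fun ξ => (hb n ξ).le⟩⟩
      · rw [hX]
        exact hunion (KM.card_Iio_lt hO a).le n _ fun c => ((hS2 (X c)) (ih c.1 c.2)).1 n
      · rw [hX]; exact Set.mem_union_left _ rfl
  have hlt : ∀ a c, a < c → ∀ n, S (X a) n ⊆ X c n := by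
    intro a c hac n
    rw [hX c n]
    exact (Set.subset_iUnion (fun d : Set.Iio c => S (X d) n) ⟨a, hac⟩).trans
      Set.subset_union_right
  -- the union
  let Z : ∀ n, Set (K n) := fun n => {b n} ∪ ⋃ a : O, S (X a) n
  have hZ1 : ∀ n, #(Z n) ≤ ℵ₁ := fun n =>
    hunion hOc.le n _ fun a => ((hS2 (X a)) (hGX a)).1 n
  have hZ2 : ∀ n, ∃ u ∈ Z n, ∀ ξ, f ξ n ≤ u := fun n =>
    ⟨b n, Set.mem_union_left _ rfl, fun ξ => (hb n ξ).le⟩
  obtain ⟨g, hg, hgZ⟩ := exists_proj hCH h₂ hf Z hZ1 hZ2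
  -- all values of `g` are in some `X a`
  have hval : ∀ n, ∃ a : O, g n ∈ X a n := by
    intro n
    rcases hg n with h | h
    · have : Nonempty O := by
        rw [← Cardinal.mk_ne_zero_iff, hOc]
        exact (zero_lt_one.trans_le hone).ne'
      refine ⟨Classical.arbitrary O, ?_⟩
      rw [hX]
      exact Set.mem_union_left _ h
    · obtain ⟨a, ha⟩ := Set.mem_iUnion.1 h
      obtain ⟨c, hc⟩ := exists_gt a
      exact ⟨c, hlt a c hc n ha⟩
  choose A hA using hval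
  obtain ⟨a, ha⟩ := KM.exists_bound hreg hO (Set.range A)
    ((Cardinal.mk_range_le.trans_eq Cardinal.mk_nat).trans_lt Cardinal.aleph0_lt_aleph_one)
  have hga : ∀ n, g n ∈ X a n := fun n =>
    hlt _ _ (ha _ ⟨n, rfl⟩) n (hS1 _ n (hA n))
  have hXZ : ∀ n, X a n ⊆ Z n := fun n => (hS1 _ n).trans
    ((Set.subset_iUnion (fun d : O => S (X d) n) a).trans Set.subset_union_right)
  have hSZ : ∀ n, S (X a) n ⊆ Z n := fun n =>
    (Set.subset_iUnion (fun d : O => S (X d) n) a).trans Set.subset_union_right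
  have hp1 : IsProj f (X a) g := hgZ.mono hXZ hga
  have hp2 : IsProj f (S (X a)) g := hgZ.mono hSZ fun n => hS1 _ n (hga n)
  obtain ⟨-, g₁, g₂, h1, h2, h3⟩ := (hS2 (X a)) (hGX a)
  apply h3
  filter_upwards [h1.unique hp1, h2.unique hp2] with n e1 e2
  rw [e1, e2]

/-- The exact upper bound: `g` from `exists_stable`.  For the second part apply stability to
`Y n = X n ∪ {g' n}`. -/
theorem exists_eub (hCH : Cardinal.continuum = ℵ₁)
    (h₂ : Ordinal.type (fun a b : Ω₂ => a < b) = (ℵ_ 2).ord)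
    (hK : ∀ n (Z : Set (K n)), #Z ≤ ℵ_ 2 → ∃ b, ∀ z ∈ Z, z < b) {f : Ω₂ → ∀ n, K n}
    (hf : ∀ ξ η, ξ < η → ∀ᶠ n in atTop, f ξ n < f η n) :
    ∃ g : ∀ n, K n, (∀ ξ, ∀ᶠ n in atTop, f ξ n < g n) ∧
      ∀ g' : ∀ n, K n, (∀ᶠ n in atTop, g' n < g n) → ∃ ξ, ∀ᶠ n in atTop, g' n < f ξ n := by
  have hreg : (ℵ_ 2 : Cardinal.{0}).IsRegular := by
    have h : (2 : Ordinal.{0}) = 1 + 1 := by norm_num
    rw [h]; exact Cardinal.isRegular_aleph_add_one 1
  obtain ⟨X, g, hX1, hX2, hproj, hst⟩ := exists_stable hCH h₂ hK hf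
  refine ⟨g, fun ξ => ?_, fun g' hg' => ?_⟩
  · obtain ⟨ξ₀, hp⟩ := hproj
    obtain ⟨b, hb⟩ := (KM.noMaxOrder_of_type hreg h₂).exists_gt (max ξ ξ₀)
    filter_upwards [hf ξ b ((le_max_left _ _).trans_lt hb),
      hp b ((le_max_right _ _).trans hb.le)] with n h1 h2
    exact h1.trans_le h2.2.1
  · obtain ⟨g'', h1, h2⟩ := exists_proj hCH h₂ hf (fun n => insert (g' n) (X n))
      (fun n => by
        refine (Cardinal.mk_insert_le).trans ?_
        exact Cardinal.add_le_of_le Cardinal.aleph0_lt_aleph_one.le (hX1 n)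
          (Cardinal.one_lt_aleph0.trans Cardinal.aleph0_lt_aleph_one).le)
      (fun n => by
        obtain ⟨u, hu, hu'⟩ := hX2 n
        exact ⟨u, Or.inr hu, hu'⟩)
    have h3 := hst (fun n => insert (g' n) (X n)) g'' (fun n => Set.subset_insert _ _)
      (fun n => by
        refine (Cardinal.mk_insert_le).trans ?_
        exact Cardinal.add_le_of_le Cardinal.aleph0_lt_aleph_one.le (hX1 n)
          (Cardinal.one_lt_aleph0.trans Cardinal.aleph0_lt_aleph_one).le) h2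
    obtain ⟨ξ₁, hp⟩ := h2
    refine ⟨ξ₁, ?_⟩
    filter_upwards [hp ξ₁ le_rfl, h3, hg'] with n k1 k2 k3
    by_contra hcon
    rw [not_lt] at hcon
    have k4 := k1.2.2 (g' n) (Or.inl rfl) hcon
    rw [k2] at k4
    exact absurd k3 (not_lt.2 k4)

end Pool.Agent.HFC
end

section

set_option linter.unusedSectionVars false
set_option linter.unusedVariables false

namespace Pool.Agent.HFC

open Cardinal Filter

variable {K : ℕ → Type} [∀ n, LinearOrder (K n)] [∀ n, WellFoundedLT (K n)]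
variable {Ω₂ : Type} [LinearOrder Ω₂] [WellFoundedLT Ω₂]

theorem large_cof_reg2 : (ℵ_ 2 : Cardinal.{0}).IsRegular := by
  have h : (2 : Ordinal.{0}) = 1 + 1 := by norm_num
  rw [h]; exact Cardinal.isRegular_aleph_add_one 1

theorem large_cof_lt : (ℵ₁ : Cardinal.{0}) < ℵ_ 2 :=
  Cardinal.aleph_lt_aleph.2 (by norm_num)

theorem large_cof_nonempty (h₂ : Ordinal.type (fun a b : Ω₂ => a < b) = (ℵ_ 2).ord) :
    Nonempty Ω₂ := by
  obtain ⟨b, -⟩ := KM.exists_bound large_cof_reg2 h₂ (∅ : Set Ω₂) (by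
    rw [Cardinal.mk_eq_zero]; exact large_cof_reg2.pos)
  exact ⟨b⟩

theorem large_cof_card (hCH : Cardinal.continuum = ℵ₁) (E : ∀ n, Set (K n))
    (hE : ∀ n, #(E n) ≤ ℵ₁) : #(∀ n, E n) ≤ ℵ₁ := by
  have hCH' : Cardinal.continuum.{0} = ℵ₁ := by
    apply Cardinal.lift_injective
    rw [Cardinal.lift_continuum, Cardinal.lift_aleph, Ordinal.lift_one]
    exact hCH
  rw [Cardinal.mk_pi]
  calc Cardinal.prod (fun n => #(E n)) ≤ Cardinal.prod (fun _ : ℕ => (ℵ₁ : Cardinal.{0})) :=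
        Cardinal.prod_le_prod _ _ hE
    _ = ℵ₁ ^ ℵ₀ := by simp [Cardinal.prod_const]
    _ = ℵ₁ := by rw [← hCH', Cardinal.continuum_power_aleph0]

/-- For almost all `n` no set of size at most `ℵ₁` is cofinal in `{x | x < g n}`.
Otherwise let `E n` be cofinal sets of size `≤ ℵ₁` for the infinitely many bad `n`.  There are
`ℵ₁ ^ ℵ₀ = ℵ₁` functions in the product of the `E n`; each is below some `f ξ` modulo finite (on the
bad `n`), so all of them are below one `f ξ`; but `f ξ` is bounded by one of them. -/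
theorem large_cof (hCH : Cardinal.continuum = ℵ₁)
    (h₂ : Ordinal.type (fun a b : Ω₂ => a < b) = (ℵ_ 2).ord) {f : Ω₂ → ∀ n, K n}
    (hf : ∀ ξ η, ξ < η → ∀ᶠ n in atTop, f ξ n < f η n) {g : ∀ n, K n}
    (hg : ∀ ξ, ∀ᶠ n in atTop, f ξ n < g n)
    (hg' : ∀ g' : ∀ n, K n, (∀ᶠ n in atTop, g' n < g n) → ∃ ξ, ∀ᶠ n in atTop, g' n < f ξ n) :
    ∀ᶠ n in atTop, ∀ E : Set (K n), #E ≤ ℵ₁ → (∀ x ∈ E, x < g n) → ∃ y < g n, ∀ x ∈ E, x < y := by
  classical
  by_contra hcon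
  rw [Filter.not_eventually] at hcon
  obtain ⟨ξ₀⟩ := large_cof_nonempty h₂
  let bad : ℕ → Prop := fun n => ¬ ∀ E : Set (K n), #E ≤ ℵ₁ → (∀ x ∈ E, x < g n) →
    ∃ y < g n, ∀ x ∈ E, x < y
  have hbad : ∀ n, ∃ E : Set (K n), #E ≤ ℵ₁ ∧ (∀ x ∈ E, x < g n) ∧
      (bad n → ∀ y < g n, ∃ x ∈ E, y ≤ x) := by
    intro n
    by_cases hb : bad n
    · have hb' := hb
      simp only [bad] at hb'
      push Not at hb'
      obtain ⟨E, h1, h2, h3⟩ := hb'
      exact ⟨E, h1, h2, fun _ => h3⟩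
    · exact ⟨∅, by simp, by simp, fun h => absurd h hb⟩
  choose E hE1 hE2 hE3 using hbad
  let E' : ∀ n, Set (K n) := fun n => insert (f ξ₀ n) (E n)
  have hE' : ∀ n, #(E' n) ≤ ℵ₁ := fun n => by
    refine (Cardinal.mk_insert_le).trans ?_
    exact Cardinal.add_le_of_le Cardinal.aleph0_lt_aleph_one.le (hE1 n)
      (Cardinal.one_lt_aleph0.trans Cardinal.aleph0_lt_aleph_one).le
  have hlt : ∀ h : ∀ n, E' n, ∀ᶠ n in atTop, (h n : K n) < g n := by
    intro h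
    filter_upwards [hg ξ₀] with n hn
    rcases (h n).2 with h1 | h1
    · rw [h1]; exact hn
    · exact hE2 n _ h1
  have hx : ∀ h : ∀ n, E' n, ∃ ξ, ∀ᶠ n in atTop, (h n : K n) < f ξ n := fun h =>
    hg' (fun n => (h n : K n)) (hlt h)
  choose ξ hξ using hx
  obtain ⟨b, hb⟩ := KM.exists_bound large_cof_reg2 h₂ (Set.range ξ)
    ((Cardinal.mk_range_le.trans (large_cof_card hCH E' hE')).trans_lt large_cof_lt)
  have hh : ∀ n, ∃ x : E' n, bad n → f b n < g n → f b n ≤ x := by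
    intro n
    by_cases h : bad n ∧ f b n < g n
    · obtain ⟨x, hx, hx'⟩ := hE3 n h.1 _ h.2
      exact ⟨⟨x, Or.inr hx⟩, fun _ _ => hx'⟩
    · exact ⟨⟨f ξ₀ n, Or.inl rfl⟩, fun h1 h2 => absurd ⟨h1, h2⟩ h⟩
  choose h hh using hh
  have h1 := hξ h
  have h2 := hf (ξ h) b (hb _ ⟨h, rfl⟩)
  obtain ⟨n, hn1, hn2, hn3, hn4⟩ := (hcon.and_eventually (h1.and (h2.and (hg b)))).exists
  exact absurd (hh n hn1 hn4) (not_le.2 (hn2.trans hn3))

/-- For almost all `n` some set of size at most `ℵ₂` is cofinal in `{x | x < g n}`.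
Otherwise, for infinitely many `n`, the set `{f ξ n | ξ, f ξ n < g n}` has a strict bound
`g' n < g n`; contradiction with `hg'`. -/
theorem small_cof (h₂ : Ordinal.type (fun a b : Ω₂ => a < b) = (ℵ_ 2).ord)
    {f : Ω₂ → ∀ n, K n} (hf : ∀ ξ η, ξ < η → ∀ᶠ n in atTop, f ξ n < f η n) {g : ∀ n, K n}
    (hg : ∀ ξ, ∀ᶠ n in atTop, f ξ n < g n)
    (hg' : ∀ g' : ∀ n, K n, (∀ᶠ n in atTop, g' n < g n) → ∃ ξ, ∀ᶠ n in atTop, g' n < f ξ n) :
    ∀ᶠ n in atTop, ∃ E : Set (K n), #E ≤ ℵ_ 2 ∧ (∀ x ∈ E, x < g n) ∧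
      ∀ y < g n, ∃ x ∈ E, y ≤ x := by
  classical
  by_contra hcon
  rw [Filter.not_eventually] at hcon
  obtain ⟨ξ₀⟩ := large_cof_nonempty h₂
  let E : ∀ n, Set (K n) := fun n => {x | x < g n} ∩ Set.range (fun ξ => f ξ n)
  have hE : ∀ n, #(E n) ≤ ℵ_ 2 := fun n =>
    (Cardinal.mk_le_mk_of_subset Set.inter_subset_right).trans
      (Cardinal.mk_range_le.trans (KM.card_of_type h₂).le)
  have hex : ∀ n, ∃ y : K n, (f ξ₀ n < g n → y < g n) ∧
      ((¬ ∃ E : Set (K n), #E ≤ ℵ_ 2 ∧ (∀ x ∈ E, x < g n) ∧ ∀ y < g n, ∃ x ∈ E, y ≤ x) →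
        ∀ x ∈ E n, x < y) := by
    intro n
    by_cases hb : ∃ E : Set (K n), #E ≤ ℵ_ 2 ∧ (∀ x ∈ E, x < g n) ∧ ∀ y < g n, ∃ x ∈ E, y ≤ x
    · exact ⟨f ξ₀ n, fun h => h, fun h => absurd hb h⟩
    · have : ¬ ∀ y < g n, ∃ x ∈ E n, y ≤ x := fun h => hb ⟨E n, hE n, fun x hx => hx.1, h⟩
      push Not at this
      obtain ⟨y, hy, hy'⟩ := this
      exact ⟨y, fun _ => hy, fun _ => hy'⟩
  choose g' hg1 hg2 using hex
  obtain ⟨ξ, hξ⟩ := hg' g' (by filter_upwards [hg ξ₀] with n hn using hg1 n hn)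
  obtain ⟨n, hn1, hn2, hn3⟩ := (hcon.and_eventually (hξ.and (hg ξ))).exists
  exact absurd (hg2 n hn1 (f ξ n) ⟨hn3, ⟨ξ, rfl⟩⟩) (not_lt.2 hn2.le)

/-- An increasing cofinal function of type `ω₂`: enumerate the cofinal set as `x ξ`, `ξ ∈ Ω₂`, and
let `e ξ` be the least strict upper bound of the `x η`, `η ≤ ξ`. -/
theorem exists_cofinal_map {Y : Type} [LinearOrder Y] [WellFoundedLT Y]
    (h₂ : Ordinal.type (fun a b : Ω₂ => a < b) = (ℵ_ 2).ord) {g : Y}
    (h : ∀ E : Set Y, #E ≤ ℵ₁ → (∀ x ∈ E, x < g) → ∃ y < g, ∀ x ∈ E, x < y) {E : Set Y}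
    (hE : #E ≤ ℵ_ 2) (hE' : ∀ x ∈ E, x < g) (hE'' : ∀ y < g, ∃ x ∈ E, y ≤ x) :
    ∃ e : Ω₂ → Y, (∀ ξ, e ξ < g) ∧ (∀ ξ η, ξ ≤ η → e ξ ≤ e η) ∧ ∀ y < g, ∃ ξ, y < e ξ := by
  classical
  have hcard : #Ω₂ = ℵ_ 2 := Pool.Agent.KM.card_of_type h₂
  have hreg : (ℵ_ 2 : Cardinal.{0}).IsRegular := by
    have h1 := Cardinal.isRegular_aleph_add_one (1 : Ordinal.{0})
    rwa [one_add_one_eq_two] at h1
  have hmax : NoMaxOrder Ω₂ := Pool.Agent.KM.noMaxOrder_of_type hreg h₂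
  -- an enumeration of the cofinal set
  have hne : Nonempty E := by
    obtain ⟨y, hy, _⟩ := h ∅ (by simp) (by simp)
    obtain ⟨x, hx, _⟩ := hE'' y hy
    exact ⟨⟨x, hx⟩⟩
  have hemb : Nonempty (E ↪ Ω₂) := by
    rw [← Cardinal.le_def, hcard]
    exact hE
  obtain ⟨j⟩ := hemb
  have hsurj : Function.Surjective (Function.invFun j) := Function.invFun_surjective j.injective
  let x : Ω₂ → E := Function.invFun j
  have hIic : ∀ ξ : Ω₂, #(Set.Iic ξ) ≤ ℵ₁ := by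
    intro ξ
    obtain ⟨ξ', hξ'⟩ := exists_gt ξ
    have h1 : #(Set.Iio ξ') < ℵ_ 2 := Pool.Agent.KM.card_Iio_lt h₂ ξ'
    have h2 : #(Set.Iic ξ) ≤ #(Set.Iio ξ') :=
      Cardinal.mk_le_mk_of_subset fun z hz => lt_of_le_of_lt hz hξ'
    have h3 : #(Set.Iic ξ) < ℵ_ 2 := h2.trans_lt h1
    have h4 : (ℵ_ 2 : Cardinal.{0}) = Order.succ ℵ₁ := by
      rw [Cardinal.succ_aleph, one_add_one_eq_two]
    rw [h4] at h3
    exact Order.lt_succ_iff.1 h3
  have hSne : ∀ ξ : Ω₂, {y : Y | y < g ∧ ∀ η ≤ ξ, (x η : Y) < y}.Nonempty := by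
    intro ξ
    obtain ⟨y, hy, hy'⟩ := h ((fun η => (x η : Y)) '' Set.Iic ξ)
      (Cardinal.mk_image_le.trans (hIic ξ)) (by
        rintro _ ⟨η, _, rfl⟩
        exact hE' _ (x η).2)
    exact ⟨y, hy, fun η hη => hy' _ ⟨η, hη, rfl⟩⟩
  let e : Ω₂ → Y := fun ξ => WellFounded.min (wellFounded_lt (α := Y)) _ (hSne ξ)
  have hemem : ∀ ξ, e ξ ∈ {y : Y | y < g ∧ ∀ η ≤ ξ, (x η : Y) < y} := fun ξ =>
    WellFounded.min_mem _ _ (hSne ξ)
  refine ⟨e, fun ξ => (hemem ξ).1, fun ξ η hξη => ?_, fun y hy => ?_⟩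
  · have h1 : e η ∈ {y : Y | y < g ∧ ∀ η ≤ ξ, (x η : Y) < y} :=
      ⟨(hemem η).1, fun ζ hζ => (hemem η).2 ζ (hζ.trans hξη)⟩
    exact not_lt.1 (WellFounded.not_lt_min (wellFounded_lt (α := Y)) _ h1)
  · obtain ⟨z, hz, hyz⟩ := hE'' y hy
    obtain ⟨ξ, hξ⟩ := hsurj ⟨z, hz⟩
    refine ⟨ξ, hyz.trans_lt ?_⟩
    have h1 := (hemem ξ).2 ξ le_rfl
    have h2 : (x ξ : Y) = z := congrArg Subtype.val hξ
    rwa [h2] at h1

/-- Functions `G ξ` interleaved with `f`: `G` is pointwise increasing from `n₀` on, every `G ξ` is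
below some `f a`, and every `f a` is below some `G ξ`, modulo finite. -/
theorem exists_interleaved (hCH : Cardinal.continuum = ℵ₁)
    (h₂ : Ordinal.type (fun a b : Ω₂ => a < b) = (ℵ_ 2).ord)
    (hK : ∀ n (Z : Set (K n)), #Z ≤ ℵ_ 2 → ∃ b, ∀ z ∈ Z, z < b) {f : Ω₂ → ∀ n, K n}
    (hf : ∀ ξ η, ξ < η → ∀ᶠ n in atTop, f ξ n < f η n) :
    ∃ (G : Ω₂ → ∀ n, K n) (n₀ : ℕ), (∀ ξ η, ξ ≤ η → ∀ n ≥ n₀, G ξ n ≤ G η n) ∧
      (∀ ξ, ∃ a, ∀ᶠ n in atTop, G ξ n < f a n) ∧ ∀ a, ∃ ξ, ∀ᶠ n in atTop, f a n < G ξ n := by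
  classical
  have hreg : (ℵ_ 2 : Cardinal.{0}).IsRegular := by
    have h1 := Cardinal.isRegular_aleph_add_one (1 : Ordinal.{0})
    rwa [one_add_one_eq_two] at h1
  obtain ⟨g, hg, hg'⟩ := exists_eub hCH h₂ hK hf
  have hev := (large_cof hCH h₂ hf hg hg').and (small_cof h₂ hf hg hg')
  obtain ⟨n₀, hn₀⟩ := eventually_atTop.1 hev
  have hex : ∀ n, ∃ e : Ω₂ → K n, n₀ ≤ n →
      ((∀ ξ, e ξ < g n) ∧ (∀ ξ η, ξ ≤ η → e ξ ≤ e η) ∧ ∀ y < g n, ∃ ξ, y < e ξ) := by
    intro n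
    by_cases hn : n₀ ≤ n
    · obtain ⟨h1, E, hE, hE', hE''⟩ := hn₀ n hn
      obtain ⟨e, he⟩ := exists_cofinal_map h₂ h1 hE hE' hE''
      exact ⟨e, fun _ => he⟩
    · exact ⟨fun _ => g n, fun h => absurd h hn⟩
  choose e he using hex
  refine ⟨fun ξ n => e n ξ, n₀, fun ξ η hξη n hn => (he n hn).2.1 ξ η hξη, fun ξ => ?_,
    fun a => ?_⟩
  · refine hg' (fun n => e n ξ) (eventually_atTop.2 ⟨n₀, fun n hn => (he n hn).1 ξ⟩)
  · have h1 : ∀ n, ∃ ξ : Ω₂, n₀ ≤ n → f a n < g n → f a n < e n ξ := by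
      intro n
      by_cases hn : n₀ ≤ n ∧ f a n < g n
      · obtain ⟨ξ, hξ⟩ := (he n hn.1).2.2 _ hn.2
        exact ⟨ξ, fun _ _ => hξ⟩
      · exact ⟨a, fun h2 h3 => absurd ⟨h2, h3⟩ hn⟩
    choose z hz using h1
    obtain ⟨b, hb⟩ := Pool.Agent.KM.exists_bound hreg h₂ (Set.range z) (by
      refine (Cardinal.mk_range_le (f := z)).trans_lt ?_
      rw [Cardinal.mk_nat]
      rw [← Cardinal.aleph_zero]
      exact Cardinal.aleph_lt_aleph.2 (by norm_num))
    refine ⟨b, ?_⟩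
    filter_upwards [hg a, eventually_ge_atTop n₀] with n hn1 hn2
    exact (hz n hn2 hn1).trans_le ((he n hn2).2.1 _ _ (hb (z n) ⟨n, rfl⟩).le)

/-- A closed unbounded choice: for a function `F : Ω₂ → Ω₂` there is a strictly increasing
`j : Ω₂ → Ω₂` with `F (j ν) ≤ j ν'` for `ν < ν'`.  (Recursion, initial segments have size `≤ ℵ₁`.) -/
theorem exists_closed_seq (h₂ : Ordinal.type (fun a b : Ω₂ => a < b) = (ℵ_ 2).ord)
    (F : Ω₂ → Ω₂) : ∃ j : Ω₂ → Ω₂, StrictMono j ∧ ∀ ν ν', ν < ν' → F (j ν) ≤ j ν' := by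
  classical
  have key : ∀ (ν : Ω₂) (r : Set.Iio ν → Ω₂), ∃ b, ∀ μ, r μ < b ∧ F (r μ) < b := by
    intro ν r
    obtain ⟨b, hb⟩ := KM.exists_bound large_cof_reg2 h₂
      (Set.range r ∪ Set.range (fun μ => F (r μ))) (by
        refine (Cardinal.mk_union_le _ _).trans_lt ?_
        exact Cardinal.add_lt_of_lt large_cof_reg2.aleph0_le
          (Cardinal.mk_range_le.trans_lt (KM.card_Iio_lt h₂ ν))
          (Cardinal.mk_range_le.trans_lt (KM.card_Iio_lt h₂ ν)))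
    exact ⟨b, fun μ => ⟨hb _ (Or.inl ⟨μ, rfl⟩), hb _ (Or.inr ⟨μ, rfl⟩)⟩⟩
  choose nx hnx using key
  let j : Ω₂ → Ω₂ := WellFounded.fix (wellFounded_lt (α := Ω₂))
    (fun ν rec => nx ν (fun μ => rec μ.1 μ.2))
  have hj : ∀ ν, j ν = nx ν (fun μ => j μ.1) := fun ν => WellFounded.fix_eq _ _ _
  have h1 : ∀ ν ν', ν < ν' → j ν < j ν' ∧ F (j ν) < j ν' := by
    intro ν ν' h
    rw [hj ν']
    exact hnx ν' (fun μ => j μ.1) ⟨ν, h⟩
  exact ⟨j, fun a b h => (h1 a b h).1, fun a b h => (h1 a b h).2.le⟩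

/-- Pigeonhole: countably many colours on a set of size `ℵ₂`. -/
theorem exists_homog {X : Type} (hX : #X = ℵ_ 2) (c : X → ℕ) :
    ∃ (Y : Set X) (k : ℕ), #Y = ℵ_ 2 ∧ ∀ x ∈ Y, c x = k := by
  obtain ⟨k, hk⟩ := Cardinal.infinite_pigeonhole c
    (by rw [hX]; exact large_cof_reg2.aleph0_le)
    (by rw [hX, large_cof_reg2.cof_ord, Cardinal.mk_nat]
        exact Cardinal.aleph0_lt_aleph_one.trans large_cof_lt)
  exact ⟨c ⁻¹' {k}, k, by rw [hk, hX], fun x hx => hx⟩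

/-- Goodness: `G (j ν) < f (A (j ν)) < G (Bf (j ν)) ≤ G (j ν')` from `n ν` on, for `ν < ν'`, where
`A ξ`, `Bf ξ` are chosen with `exists_interleaved`; take `ℵ₂` many `ν` with the same `n ν`. -/
theorem good (hCH : Cardinal.continuum = ℵ₁)
    (h₂ : Ordinal.type (fun a b : Ω₂ => a < b) = (ℵ_ 2).ord)
    (hK : ∀ n (Z : Set (K n)), #Z ≤ ℵ_ 2 → ∃ b, ∀ z ∈ Z, z < b) {f : Ω₂ → ∀ n, K n}
    (hf : ∀ ξ η, ξ < η → ∀ᶠ n in atTop, f ξ n < f η n) :
    ∃ (J : Set Ω₂) (n₀ : ℕ), #J = ℵ_ 2 ∧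
      ∀ ξ ∈ J, ∀ η ∈ J, ξ < η → ∀ n ≥ n₀, f ξ n < f η n := by
  classical
  obtain ⟨G, n₀, hG, hA, hB⟩ := exists_interleaved hCH h₂ hK hf
  choose A hA using hA
  choose B hB using hB
  obtain ⟨j, hj, hjF⟩ := exists_closed_seq h₂ (fun ξ => B (A ξ))
  have hN : ∀ ν, ∃ N : ℕ, ∀ n ≥ N, G (j ν) n < f (A (j ν)) n ∧
      f (A (j ν)) n < G (B (A (j ν))) n := by
    intro ν
    obtain ⟨N, hN⟩ := eventually_atTop.1 ((hA (j ν)).and (hB (A (j ν))))
    exact ⟨N, fun n hn => hN n hn⟩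
  choose N hN using hN
  obtain ⟨Y, k, hY, hk⟩ := exists_homog (Pool.Agent.KM.card_of_type h₂) N
  have key : ∀ ν ∈ Y, ∀ ν' ∈ Y, ν < ν' → ∀ n ≥ max k n₀,
      f (A (j ν)) n < f (A (j ν')) n := by
    intro ν hν ν' hν' hlt n hn
    have h1 := (hN ν n (by rw [hk ν hν]; exact (le_max_left _ _).trans hn)).2
    have h2 := (hN ν' n (by rw [hk ν' hν']; exact (le_max_left _ _).trans hn)).1
    exact (h1.trans_le (hG _ _ (hjF ν ν' hlt) n ((le_max_right _ _).trans hn))).trans h2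
  refine ⟨(fun ν => A (j ν)) '' Y, max k n₀, ?_, ?_⟩
  · rw [Cardinal.mk_image_eq_of_injOn _ _ ?_, hY]
    intro ν hν ν' hν' he
    by_contra hne
    have he' : A (j ν) = A (j ν') := he
    rcases lt_or_gt_of_ne hne with hlt | hlt
    · have h1 := key ν hν ν' hν' hlt _ le_rfl
      rw [he'] at h1
      exact lt_irrefl _ h1
    · have h1 := key ν' hν' ν hν hlt _ le_rfl
      rw [he'] at h1
      exact lt_irrefl _ h1
  · rintro _ ⟨ν, hν, rfl⟩ _ ⟨ν', hν', rfl⟩ hlt n hn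
    rcases lt_trichotomy ν ν' with h | h | h
    · exact key ν hν ν' hν' h n hn
    · subst h
      exact absurd hlt (lt_irrefl _)
    · obtain ⟨M, hM⟩ := eventually_atTop.1 (hf _ _ hlt)
      have h1 := hM (max M (max k n₀)) (le_max_left _ _)
      have h2 := key ν' hν' ν hν h (max M (max k n₀)) (le_max_right _ _)
      exact absurd (h1.trans h2) (lt_irrefl _)

end Pool.Agent.HFC
end

section

set_option linter.unusedSectionVars false
set_option linter.unusedVariables false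

/-!
# Scales and the poset
-/

namespace Pool.Agent.HFC

open Cardinal Filter

variable {K : ℕ → Type} [∀ n, LinearOrder (K n)] [∀ n, WellFoundedLT (K n)]

theorem exists_above_le_of_forall {c : Cardinal.{0}} (h : ∀ m : ℕ, ℵ_ (m : Ordinal.{0}) ≤ c) :
    ℵ_ Ordinal.omega0 ≤ c := by
  by_contra hc
  push Not at hc
  have h1 := (Cardinal.isNormal_aleph.lt_iff_exists_lt Ordinal.isSuccLimit_omega0).1 hc
  obtain ⟨a, ha, hca⟩ := h1
  obtain ⟨m, rfl⟩ := Ordinal.lt_omega0.1 ha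
  exact absurd (h m) (not_le.2 hca)

theorem exists_above_regular (n : ℕ) : (ℵ_ ((n : Ordinal.{0}) + 3)).IsRegular := by
  have h : (n : Ordinal.{0}) + 3 = ((n : Ordinal.{0}) + 2) + 1 := by
    rw [add_assoc]
    norm_num
  rw [h]
  exact isRegular_aleph_add_one _

/-- `ℵ_ω` many functions have an upper bound modulo finite: write `Y = ⋃ n, Y n` with
`#(Y n) ≤ ℵ_n`, increasing; let `g n` be a bound of `{y n | y ∈ Y n}`. -/
theorem exists_above (hK : ∀ n, Ordinal.type (fun a b : K n => a < b) = (ℵ_ ((n : Ordinal.{0}) + 3)).ord)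
    (Y : Set (∀ n, K n)) (hY : #Y ≤ ℵ_ Ordinal.omega0) :
    ∃ g : ∀ n, K n, ∀ y ∈ Y, ∀ᶠ n in atTop, y n < g n := by
  have hO : Ordinal.type (fun a b : (ℵ_ Ordinal.omega0).ord.ToType => a < b) = (ℵ_ Ordinal.omega0).ord :=
    Ordinal.type_toType _
  have hcard : #Y ≤ #((ℵ_ Ordinal.omega0).ord.ToType) := by
    rw [Cardinal.mk_ord_toType]
    exact hY
  obtain ⟨o⟩ := Cardinal.le_def _ _ |>.1 hcard
  have ha : ∀ m : ℕ, ∃ a : (ℵ_ Ordinal.omega0).ord.ToType, #(Set.Iio a) = ℵ_ (m : Ordinal.{0}) := fun m =>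
    KM.exists_card_Iio hO (Cardinal.aleph_lt_aleph.2 (Ordinal.natCast_lt_omega0 m))
  choose a ha using ha
  have hex : ∀ z : (ℵ_ Ordinal.omega0).ord.ToType, ∃ m, z < a m := by
    intro z
    by_contra hz
    push Not at hz
    have h1 : ∀ m : ℕ, ℵ_ (m : Ordinal.{0}) ≤ #(Set.Iio z) := by
      intro m
      rw [← ha m]
      exact Cardinal.mk_le_mk_of_subset (Set.Iio_subset_Iio (hz m))
    have h2 := exists_above_le_of_forall h1
    exact absurd (KM.card_Iio_lt hO z) (not_lt.2 h2)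
  have hmono : ∀ m n : ℕ, m ≤ n → a m ≤ a n := by
    intro m n hmn
    by_contra hc
    push Not at hc
    rcases Nat.eq_or_lt_of_le hmn with h | h
    · subst h
      exact absurd hc (lt_irrefl _)
    have h1 : ℵ_ (n : Ordinal.{0}) ≤ ℵ_ (m : Ordinal.{0}) := by
      rw [← ha m, ← ha n]
      exact Cardinal.mk_le_mk_of_subset (Set.Iio_subset_Iio hc.le)
    rw [Cardinal.aleph_le_aleph] at h1
    have h2 : n ≤ m := by exact_mod_cast h1
    omega
  have hg : ∀ n : ℕ, ∃ g : K n, ∀ x ∈ {x : K n | ∃ y : Y, o y < a n ∧ y.1 n = x}, x < g := by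
    intro n
    refine KM.exists_bound (exists_above_regular n) (hK n) _ ?_
    have h1 : #{x : K n | ∃ y : Y, o y < a n ∧ y.1 n = x} ≤ ℵ_ (n : Ordinal.{0}) := by
      rw [← ha n]
      have h2 : {x : K n | ∃ y : Y, o y < a n ∧ y.1 n = x} = (fun y : Y => y.1 n) '' {y : Y | o y < a n} := by
        ext x
        simp
      rw [h2]
      refine Cardinal.mk_image_le.trans ?_
      refine Cardinal.mk_le_of_injective (f := fun y : {y : Y | o y < a n} => (⟨o y.1, y.2⟩ : Set.Iio (a n))) ?_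
      intro y z hyz
      have h3 : o y.1 = o z.1 := congrArg Subtype.val hyz
      exact Subtype.ext (o.injective h3)
    refine h1.trans_lt ?_
    rw [Cardinal.aleph_lt_aleph]
    simp
  choose g hg using hg
  refine ⟨g, ?_⟩
  intro y hy
  obtain ⟨m, hm⟩ := hex (o ⟨y, hy⟩)
  filter_upwards [eventually_ge_atTop m] with n hn
  exact hg n _ ⟨⟨y, hy⟩, hm.trans_le (hmono m n hn), rfl⟩

/-- `(ℵ_ω) ^ ℵ₀ ≤ (2 ^ ℵ_ω) ^ ℵ₀ = 2 ^ ℵ_ω` -/
theorem card_prod_le (hK : ∀ n, Ordinal.type (fun a b : K n => a < b) = (ℵ_ ((n : Ordinal.{0}) + 3)).ord)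
    (h2 : (2 : Cardinal.{0}) ^ ℵ_ Ordinal.omega0 = ℵ_ (Ordinal.omega0 + 1)) :
    #(∀ n, K n) ≤ ℵ_ (Ordinal.omega0 + 1) := by
  have hKn : ∀ n, #(K n) ≤ ℵ_ Ordinal.omega0 := by
    intro n
    rw [KM.card_of_type (hK n), Cardinal.aleph_le_aleph]
    have h3 : (n : Ordinal.{0}) + 3 = ((n + 3 : ℕ) : Ordinal.{0}) := by push_cast; rfl
    rw [h3]
    exact (Ordinal.natCast_lt_omega0 _).le
  rw [Cardinal.mk_pi]
  calc Cardinal.prod (fun n => #(K n)) ≤ Cardinal.prod (fun _ : ℕ => ℵ_ Ordinal.omega0) :=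
        Cardinal.prod_le_prod _ _ hKn
    _ = (ℵ_ Ordinal.omega0) ^ ℵ₀ := by
        rw [Cardinal.prod_const]
        simp
    _ ≤ (2 ^ ℵ_ Ordinal.omega0) ^ ℵ₀ := Cardinal.power_le_power_right (Cardinal.cantor _).le
    _ = 2 ^ (ℵ_ Ordinal.omega0) := by
        rw [← Cardinal.power_mul, Cardinal.mul_eq_left (Cardinal.aleph0_le_aleph _)
          (Cardinal.aleph0_le_aleph _) Cardinal.aleph0_ne_zero]
    _ = _ := h2

/-- A scale in which for every `i` cofinally many members have least possible value at `i`.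
Let `E : Λ → (∀ n, K n) × ℕ` be onto, all fibres of size `ℵ_{ω+1}` (a map onto
`((∀ n, K n) × ℕ) × Λ`).  By recursion let `h b` be above `(E b).1` and all `h a`,
`a < b`, modulo finite (`exists_above`; initial segments of `Λ` have size `≤ ℵ_ω`), changed to the
least element of `K n` for `n ≤ (E b).2`.  For the last property: `{b | (E b).2 = i}` has size
`ℵ_{ω+1}`, so it is unbounded. -/
theorem exists_scale (hK : ∀ n, Ordinal.type (fun a b : K n => a < b) = (ℵ_ ((n : Ordinal.{0}) + 3)).ord)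
    (h2 : (2 : Cardinal.{0}) ^ ℵ_ Ordinal.omega0 = ℵ_ (Ordinal.omega0 + 1)) {Λ : Type}
    [LinearOrder Λ] [WellFoundedLT Λ]
    (hΛ : Ordinal.type (fun a b : Λ => a < b) = (ℵ_ (Ordinal.omega0 + 1)).ord) :
    ∃ h : Λ → ∀ n, K n, (∀ a b, a < b → ∀ᶠ n in atTop, h a n < h b n) ∧
      (∀ g : ∀ n, K n, ∃ b, ∀ᶠ n in atTop, g n < h b n) ∧
      ∀ (i : ℕ) (a : Λ), ∃ b, a < b ∧ ∀ x : K i, h b i ≤ x := by
  classical
  have hreg : (ℵ_ (Ordinal.omega0 + 1)).IsRegular := isRegular_aleph_add_one _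
  have hΛc : #Λ = ℵ_ (Ordinal.omega0 + 1) := KM.card_of_type hΛ
  -- least elements
  have hbot : ∀ n, ∃ x : K n, ∀ y : K n, x ≤ y := by
    intro n
    obtain ⟨x0, -⟩ := KM.exists_bound (exists_above_regular n) (hK n) ∅ (by
      rw [Cardinal.mk_eq_zero]
      exact (exists_above_regular n).pos)
    refine ⟨(wellFounded_lt : WellFounded (fun a b : K n => a < b)).min Set.univ ⟨x0, trivial⟩, ?_⟩
    intro y
    exact not_lt.1 ((wellFounded_lt : WellFounded (fun a b : K n => a < b)).not_lt_min Set.univ (Set.mem_univ y))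
  choose bt hbt using hbot
  -- the bookkeeping map
  have hΛne : Nonempty Λ := by
    rw [← Cardinal.mk_ne_zero_iff, hΛc]
    exact (Cardinal.aleph_pos _).ne'
  have hne : Nonempty (((∀ n, K n) × ℕ) × Λ) := ⟨((bt, 0), hΛne.some)⟩
  have hle : #(((∀ n, K n) × ℕ) × Λ) ≤ #Λ := by
    rw [Cardinal.mk_prod, Cardinal.mk_prod, Cardinal.lift_id, Cardinal.lift_id, Cardinal.lift_id,
      Cardinal.lift_id, hΛc, Cardinal.mk_nat]
    calc #(∀ n, K n) * ℵ₀ * ℵ_ (Ordinal.omega0 + 1)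
        ≤ ℵ_ (Ordinal.omega0 + 1) * ℵ_ (Ordinal.omega0 + 1) * ℵ_ (Ordinal.omega0 + 1) := by
          gcongr
          · exact card_prod_le hK h2
          · exact Cardinal.aleph0_le_aleph _
      _ = ℵ_ (Ordinal.omega0 + 1) := by
          rw [Cardinal.mul_eq_self (Cardinal.aleph0_le_aleph _), Cardinal.mul_eq_self (Cardinal.aleph0_le_aleph _)]
  obtain ⟨j⟩ := Cardinal.le_def _ _ |>.1 hle
  obtain ⟨E', hE'⟩ : ∃ E' : Λ → ((∀ n, K n) × ℕ) × Λ, Function.Surjective E' :=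
    ⟨Function.invFun j, Function.invFun_surjective j.injective⟩
  have hfib : ∀ (g : ∀ n, K n) (i : ℕ) (a : Λ), ∃ b, a < b ∧ (E' b).1 = (g, i) := by
    intro g i a
    by_contra hc
    push Not at hc
    -- Λ is the image of Iio a' for some a'
    obtain ⟨a', haa'⟩ := (KM.noMaxOrder_of_type hreg hΛ).exists_gt a
    have h3 : (Set.univ : Set Λ) ⊆ (fun b => (E' b).2) '' (Set.Iio a') := by
      intro x _
      obtain ⟨b, hb⟩ := hE' ((g, i), x)
      refine ⟨b, ?_, by show (E' b).2 = x; rw [hb]⟩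
      by_contra hb'
      have h4 : a < b := haa'.trans_le (not_lt.1 hb')
      exact hc b h4 (by rw [hb])
    have h5 : #Λ ≤ #(Set.Iio a') := by
      rw [← Cardinal.mk_univ]
      exact (Cardinal.mk_le_mk_of_subset h3).trans Cardinal.mk_image_le
    have h6 := KM.card_Iio_lt hΛ a'
    rw [hΛc] at h5
    exact absurd h6 (not_lt.2 h5)
  -- the bound on initial segments
  have hseg : ∀ (b : Λ) (ih : ∀ a, a < b → ∀ n, K n),
      #(insert (E' b).1.1 (Set.range (fun a : Set.Iio b => ih a.1 a.2)) : Set (∀ n, K n)) ≤ ℵ_ Ordinal.omega0 := by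
    intro b ih
    have h3 : #(Set.Iio b) ≤ ℵ_ Ordinal.omega0 := by
      have h4 := KM.card_Iio_lt hΛ b
      have h5 : ℵ_ (Ordinal.omega0 + 1) = Order.succ (ℵ_ Ordinal.omega0) := by
        rw [Cardinal.succ_aleph]
      rw [h5] at h4
      exact Order.lt_succ_iff.1 h4
    refine (Cardinal.mk_insert_le).trans ?_
    refine (add_le_add (Cardinal.mk_range_le.trans h3) (Cardinal.one_le_aleph0.trans (Cardinal.aleph0_le_aleph Ordinal.omega0))).trans ?_
    exact (Cardinal.add_eq_self (Cardinal.aleph0_le_aleph _)).le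
  let F : ∀ b : Λ, (∀ a, a < b → ∀ n, K n) → ∀ n, K n := fun b ih n =>
    if n ≤ (E' b).1.2 then bt n else (exists_above hK _ (hseg b ih)).choose n
  let h : Λ → ∀ n, K n := (wellFounded_lt : WellFounded (fun a b : Λ => a < b)).fix F
  have hfix : ∀ b, h b = F b (fun a _ => h a) := by
    intro b
    exact WellFounded.fix_eq _ F b
  have hspec : ∀ (b : Λ) (y : ∀ n, K n), (y = (E' b).1.1 ∨ ∃ a, a < b ∧ h a = y) → ∀ᶠ n in atTop, y n < h b n := by
    intro b y hy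
    have h3 := (exists_above hK _ (hseg b (fun a _ => h a))).choose_spec y (by
      rcases hy with hy | ⟨a, hab, hy⟩
      · left
        exact hy
      · right
        exact ⟨⟨a, hab⟩, hy⟩)
    filter_upwards [h3, eventually_gt_atTop (E' b).1.2] with n hn1 hn2
    rw [hfix b]
    show y n < (if n ≤ (E' b).1.2 then bt n else (exists_above hK _ (hseg b (fun a _ => h a))).choose n)
    rw [if_neg (not_le.2 hn2)]
    exact hn1
  refine ⟨h, ?_, ?_, ?_⟩
  · intro a b hab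
    exact hspec b (h a) (Or.inr ⟨a, hab, rfl⟩)
  · intro g
    obtain ⟨b, -, hb⟩ := hfib g 0 hΛne.some
    exact ⟨b, hspec b g (Or.inl (by rw [hb]))⟩
  · intro i a
    obtain ⟨b, hab, hb⟩ := hfib bt i a
    refine ⟨b, hab, ?_⟩
    intro x
    rw [hfix b]
    show (if i ≤ (E' b).1.2 then bt i else (exists_above hK _ (hseg b (fun a _ => h a))).choose i) ≤ x
    rw [if_pos (by rw [hb])]
    exact hbt i x

/-- The poset of all functions which are pointwise above some `h b` and equal to it modulo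
finite. -/
def RS {Λ : Type} (h : Λ → ∀ n, K n) : Type :=
  {s : ∀ n, K n // ∃ b, (∀ n, h b n ≤ s n) ∧ ∀ᶠ n in atTop, s n = h b n}

instance {Λ : Type} (h : Λ → ∀ n, K n) : PartialOrder (RS h) :=
  Subtype.partialOrder _

variable {Λ : Type} [LinearOrder Λ] [WellFoundedLT Λ] {h : Λ → ∀ n, K n}

/-- Given a decreasing sequence `s k`, with `b k` as in the definition, `b` is weakly decreasing, so
eventually constant with value `b`; then only finitely many coordinates change, and each of them is in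
a well-order.  (Or: a bad sequence in the lexicographic product.) -/
theorem rs_wf (hmono : ∀ a b, a < b → ∀ᶠ n in atTop, h a n < h b n) :
    WellFoundedLT (RS h) := by
  classical
  refine ⟨?_⟩
  rw [wellFounded_iff_isEmpty_descending_chain]
  refine ⟨fun ⟨s, hs⟩ => ?_⟩
  have hstep : ∀ k, s (k + 1) < s k := hs
  have hanti : ∀ k l, k ≤ l → s l ≤ s k := by
    intro k l hkl
    induction l, hkl using Nat.le_induction with
    | base => exact le_rfl
    | succ l _ ih => exact (hstep l).le.trans ih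
  choose b hb hb' using fun k => (s k).2
  have hbanti : ∀ k l, k ≤ l → b l ≤ b k := by
    intro k l hkl
    by_contra hlt
    rw [not_le] at hlt
    obtain ⟨n, h1, h2, h3⟩ := ((hb' k).and ((hb' l).and (hmono _ _ hlt))).exists
    have h4 : (s l).1 n ≤ (s k).1 n := hanti k l hkl n
    rw [h1, h2] at h4
    exact absurd h4 (not_le.2 h3)
  -- the least value
  have hne : (Set.range b).Nonempty := ⟨b 0, 0, rfl⟩
  obtain ⟨k₀, hk₀⟩ := WellFounded.min_mem (wellFounded_lt (α := Λ)) (Set.range b) hne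
  have hmin : ∀ k, b k₀ ≤ b k := by
    intro k
    rw [hk₀]
    exact not_lt.1 (WellFounded.not_lt_min (wellFounded_lt (α := Λ)) _ (Set.mem_range_self k))
  have hconst : ∀ k, k₀ ≤ k → b k = b k₀ := fun k hk => le_antisymm (hbanti _ _ hk) (hmin k)
  obtain ⟨m, hm⟩ := eventually_atTop.1 (hb' k₀)
  have htail : ∀ k, k₀ ≤ k → ∀ n, m ≤ n → (s k).1 n = h (b k₀) n := by
    intro k hk n hn
    refine le_antisymm ?_ ?_
    · rw [← hm n hn]
      exact hanti _ _ hk n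
    · rw [← hconst k hk]
      exact hb k n
  -- the restrictions
  have hwf : WellFounded (fun a b : (∀ n : Fin m, K n) => a < b) := wellFounded_lt
  rw [wellFounded_iff_isEmpty_descending_chain] at hwf
  refine hwf.false ⟨fun k n => (s (k₀ + k)).1 n, fun k => ?_⟩
  have hlt := hstep (k₀ + k)
  refine lt_of_le_of_ne (fun n => hlt.le n) fun heq => ?_
  refine hlt.ne (Subtype.ext (funext fun n => ?_))
  by_cases hn : n < m
  · exact congrFun heq ⟨n, hn⟩
  · rw [htail (k₀ + k + 1) (by omega) n (not_lt.1 hn), htail (k₀ + k) (by omega) n (not_lt.1 hn)]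

/-- Two elements of an infinite family of functions on `{0, …, m - 1}` are comparable (Dickson's
lemma; `wellQuasiOrdered_le` for `∀ n : Fin m, K n`, or `Pool.Agent.MP_a8a7e3.T13_dickson`). -/
theorem dickson (m : ℕ) (F : ℕ → ∀ n, K n) : ∃ k l, k < l ∧ ∀ n < m, F k n ≤ F l n := by
  obtain ⟨k, l, hkl, h⟩ := (wellQuasiOrdered_le (α := ∀ n : Fin m, K n)) (fun k n => F k n)
  exact ⟨k, l, hkl, fun n hn => h ⟨n, hn⟩⟩

/-- A subset of `Λ` of size `ℵ₂` contains a strictly increasing image of `Ω₂`. -/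
theorem exists_strictMono₂ {Ω₂ : Type} [LinearOrder Ω₂] [WellFoundedLT Ω₂]
    (h₂ : Ordinal.type (fun a b : Ω₂ => a < b) = (ℵ_ 2).ord) {A : Set Λ} (hA : ℵ_ 2 ≤ #A) :
    ∃ u : Ω₂ → Λ, StrictMono u ∧ ∀ ξ, u ξ ∈ A := by
  have h1 : Ordinal.type (fun a b : Ω₂ => a < b) ≤ Ordinal.type (fun a b : A => a < b) := by
    rw [h₂, Cardinal.ord_le]
    simpa using hA
  obtain ⟨f⟩ := Ordinal.type_le_iff'.1 h1
  exact ⟨fun ξ => (f ξ).1, fun a b hab => f.map_rel_iff.2 hab, fun ξ => (f ξ).2⟩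

/-- No antichains of size `ℵ₂`.
Let `b ξ` be as in the definition for `f ξ`.  Case 1: some value `b` is taken uncountably often; thin
out to an infinite set on which `f ξ n = h b n` for `n ≥ m`, with the same `m`, and use `dickson`.
Case 2: otherwise the set of values has size `ℵ₂`; `exists_strictMono₂` gives `u : Ω₂ → Λ` with values among the `b ξ`; apply `good` to
`h ∘ u`, get `J`, `n₀`; thin out (`exists_homog`) so that `f ξ n = h (b ξ) n` for `n ≥ m`, `m ≥ n₀`;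
take an increasing `ω`-sequence in the resulting set and apply `dickson`. -/
theorem rs_anti (hCH : Cardinal.continuum = ℵ₁)
    (hK : ∀ n, Ordinal.type (fun a b : K n => a < b) = (ℵ_ ((n : Ordinal.{0}) + 3)).ord)
    (hmono : ∀ a b, a < b → ∀ᶠ n in atTop, h a n < h b n) {Ω₂ : Type} [LinearOrder Ω₂]
    [WellFoundedLT Ω₂] (h₂ : Ordinal.type (fun a b : Ω₂ => a < b) = (ℵ_ 2).ord)
    (f : Ω₂ → RS h) : ∃ ξ η, ξ ≠ η ∧ f ξ ≤ f η := by
  classical
  have hreg : ∀ n : ℕ, (ℵ_ ((n : Ordinal.{0}) + 3)).IsRegular := by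
    intro n
    have h1 := Cardinal.isRegular_aleph_add_one ((n : Ordinal.{0}) + 2)
    rwa [add_assoc, show (2 : Ordinal.{0}) + 1 = 3 from two_add_one_eq_three] at h1
  have hreg2 : (ℵ_ 2 : Cardinal.{0}).IsRegular := by
    have h1 := Cardinal.isRegular_aleph_add_one (1 : Ordinal.{0})
    rwa [one_add_one_eq_two] at h1
  have hKb : ∀ n (Z : Set (K n)), #Z ≤ ℵ_ 2 → ∃ b, ∀ z ∈ Z, z < b := by
    intro n Z hZ
    refine Pool.Agent.KM.exists_bound (hreg n) (hK n) Z (hZ.trans_lt ?_)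
    refine Cardinal.aleph_lt_aleph.2 ?_
    have h3 : (3 : Ordinal.{0}) ≤ (n : Ordinal.{0}) + 3 := le_add_self
    refine lt_of_lt_of_le ?_ h3
    exact_mod_cast (by norm_num : (2 : ℕ) < 3)
  choose b hb hb' using fun ξ => (f ξ).2
  choose m hm using fun ξ => eventually_atTop.1 (hb' ξ)
  have hcard : #Ω₂ = ℵ_ 2 := Pool.Agent.KM.card_of_type h₂
  rcases lt_or_ge #(Set.range b) (ℵ_ 2) with hlt | hge
  · -- a value is taken often
    have h1 : #(Set.range b × ℕ) < ℵ_ 2 := by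
      rw [Cardinal.mk_prod, Cardinal.lift_id, Cardinal.lift_id, Cardinal.mk_nat]
      refine Cardinal.mul_lt_of_lt hreg2.aleph0_le hlt ?_
      rw [← Cardinal.aleph_zero]
      exact Cardinal.aleph_lt_aleph.2 (by norm_num)
    obtain ⟨⟨⟨β, hβ⟩, M⟩, hfib⟩ := Cardinal.infinite_pigeonhole_card
      (fun ξ : Ω₂ => ((⟨b ξ, ξ, rfl⟩, m ξ) : Set.range b × ℕ)) (ℵ_ 2) hcard.ge hreg2.aleph0_le
      (by rw [hreg2.cof_ord]; exact h1)
    have hinf : Infinite ((fun ξ : Ω₂ => ((⟨b ξ, ξ, rfl⟩, m ξ) : Set.range b × ℕ)) ⁻¹'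
        {(⟨β, hβ⟩, M)}) := by
      rw [Cardinal.infinite_iff]
      exact hreg2.aleph0_le.trans hfib
    let ι := Infinite.natEmbedding ((fun ξ : Ω₂ => ((⟨b ξ, ξ, rfl⟩, m ξ) : Set.range b × ℕ)) ⁻¹'
        {(⟨β, hβ⟩, M)})
    have hι : ∀ k, b (ι k).1 = β ∧ m (ι k).1 = M := by
      intro k
      have h2 := (ι k).2
      rw [Set.mem_preimage, Set.mem_singleton_iff, Prod.mk.injEq, Subtype.mk.injEq] at h2
      exact h2
    obtain ⟨k, l, hkl, hd⟩ := dickson M fun k => (f (ι k).1).1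
    refine ⟨(ι k).1, (ι l).1, fun he => hkl.ne (ι.injective (Subtype.ext he)), fun n => ?_⟩
    by_cases hn : n < M
    · exact hd n hn
    · rw [not_lt] at hn
      rw [hm (ι k).1 n (by rw [(hι k).2]; exact hn), hm (ι l).1 n (by rw [(hι l).2]; exact hn),
        (hι k).1, (hι l).1]
  · obtain ⟨u, hu, huA⟩ := exists_strictMono₂ h₂ hge
    choose v hv using huA
    obtain ⟨J, n₀, hJ, hJ'⟩ := good hCH h₂ hKb (f := fun ξ n => h (u ξ) n)
      (fun ξ η hξη => hmono _ _ (hu hξη))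
    obtain ⟨Y, M', hY, hY'⟩ := exists_homog hJ fun ξ => m (v ξ.1)
    have hinf : Infinite Y := by
      rw [Cardinal.infinite_iff, hY]
      exact hreg2.aleph0_le
    let ι₀ := Infinite.natEmbedding Y
    have hι₀ : ∀ k l, ((ι₀ k).1.1 : Ω₂) = (ι₀ l).1.1 → k = l := fun k l he =>
      ι₀.injective (Subtype.ext (Subtype.ext he))
    obtain ⟨g, hg⟩ := exists_increasing_or_nonincreasing_subseq (fun a b : Ω₂ => a < b)
      fun k => (ι₀ k).1.1
    have hinc : ∀ k l, k < l → ((ι₀ (g k)).1.1 : Ω₂) < (ι₀ (g l)).1.1 := by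
      rcases hg with hg | hg
      · exact hg
      · exfalso
        refine not_strictAnti_of_wellFoundedLT (fun k => ((ι₀ (g k)).1.1 : Ω₂)) ?_
        intro k l hkl
        refine lt_of_le_of_ne (not_lt.1 (hg k l hkl)) fun he => ?_
        have h2 := g.injective (hι₀ _ _ he)
        exact hkl.ne h2.symm
    obtain ⟨k, l, hkl, hd⟩ := dickson (max n₀ M') fun k => (f (v (ι₀ (g k)).1.1)).1
    have hlt := hinc k l hkl
    refine ⟨v (ι₀ (g k)).1.1, v (ι₀ (g l)).1.1, fun he => ?_, fun n => ?_⟩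
    · have h2 := congrArg b he
      rw [hv, hv] at h2
      exact (hu hlt).ne h2
    · by_cases hn : n < max n₀ M'
      · exact hd n hn
      · rw [not_lt] at hn
        have hn1 := (le_max_left _ _).trans hn
        have hn2 := (le_max_right _ _).trans hn
        rw [hm _ n (by rw [hY' _ (ι₀ (g k)).2]; exact hn2),
          hm _ n (by rw [hY' _ (ι₀ (g l)).2]; exact hn2), hv, hv]
        exact (hJ' _ (ι₀ (g k)).1.2 _ (ι₀ (g l)).1.2 hlt n hn1).le

/-- Upper bounds with a restriction at the coordinate `i`: let `g n` be the supremum of the `y n`,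
`y ∈ Y` (at `i` it is `≤ a`), `b` with `g < h b` modulo finite and `h b i` least possible (the scale is
increasing), and `t n = max (h b n) (g n)`. -/
theorem rs_dir (hK : ∀ n, Ordinal.type (fun a b : K n => a < b) = (ℵ_ ((n : Ordinal.{0}) + 3)).ord)
    (hmono : ∀ a b, a < b → ∀ᶠ n in atTop, h a n < h b n)
    (hcof : ∀ g : ∀ n, K n, ∃ b, ∀ᶠ n in atTop, g n < h b n)
    (hleast : ∀ (i : ℕ) (a : Λ), ∃ b, a < b ∧ ∀ x : K i, h b i ≤ x) (i : ℕ) (a : K i)
    (Y : Set (RS h)) (hY : #Y ≤ ℵ₁) (hYa : ∀ y ∈ Y, y.1 i ≤ a) :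
    ∃ t : RS h, t.1 i ≤ a ∧ ∀ y ∈ Y, y ≤ t := by
  classical
  have hreg : ∀ n : ℕ, (ℵ_ ((n : Ordinal.{0}) + 3)).IsRegular := by
    intro n
    have h1 := Cardinal.isRegular_aleph_add_one ((n : Ordinal.{0}) + 2)
    rwa [add_assoc, show (2 : Ordinal.{0}) + 1 = 3 from two_add_one_eq_three] at h1
  have h1 : ∀ n, ∃ c : K n, ∀ y ∈ Y, y.1 n ≤ c := by
    intro n
    obtain ⟨c, hc⟩ := Pool.Agent.KM.exists_bound (hreg n) (hK n) ((fun y : RS h => y.1 n) '' Y) (by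
      refine (Cardinal.mk_image_le.trans hY).trans_lt ?_
      refine Cardinal.aleph_lt_aleph.2 ?_
      have h3 : (3 : Ordinal.{0}) ≤ (n : Ordinal.{0}) + 3 := le_add_self
      refine lt_of_lt_of_le ?_ h3
      exact_mod_cast (by norm_num : (1 : ℕ) < 3))
    exact ⟨c, fun y hy => (hc _ ⟨y, hy, rfl⟩).le⟩
  choose g' hg' using h1
  let g : ∀ n, K n := Function.update g' i a
  have hgi : g i = a := Function.update_self i a g'
  have hg : ∀ n, ∀ y ∈ Y, y.1 n ≤ g n := by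
    intro n y hy
    by_cases hn : n = i
    · subst hn
      rw [hgi]
      exact hYa y hy
    · have h2 : g n = g' n := Function.update_of_ne hn a g'
      rw [h2]
      exact hg' n y hy
  obtain ⟨b₀, hb₀⟩ := hcof g
  obtain ⟨b, hb, hbi⟩ := hleast i b₀
  have hb' : ∀ᶠ n in atTop, g n < h b n := by
    filter_upwards [hb₀, hmono b₀ b hb] with n h2 h3
    exact h2.trans h3
  refine ⟨⟨fun n => max (h b n) (g n), b, fun n => le_max_left _ _, ?_⟩, ?_, fun y hy n => ?_⟩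
  · filter_upwards [hb'] with n hn
    exact max_eq_left hn.le
  · show max (h b i) (g i) ≤ a
    rw [hgi]
    exact max_le (hbi a) le_rfl
  · exact (hg n y hy).trans (le_max_right _ _)

theorem rs_bdd_regular (n : ℕ) : (ℵ_ ((n : Ordinal.{0}) + 3)).IsRegular := by
  have h3 : ((n : Ordinal.{0}) + 3) = ((n : Ordinal.{0}) + 2) + 1 := by
    rw [add_assoc]
    norm_num
  rw [h3]
  exact Cardinal.isRegular_aleph_add_one _

theorem rs_bdd_lt (n : ℕ) : ℵ₁ < ℵ_ ((n : Ordinal.{0}) + 3) := by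
  rw [Cardinal.aleph_lt_aleph]
  exact lt_of_lt_of_le (by norm_num) (le_add_self : (3 : Ordinal.{0}) ≤ (n : Ordinal.{0}) + 3)

/-- Strict upper bounds. -/
theorem rs_bdd (hK : ∀ n, Ordinal.type (fun a b : K n => a < b) = (ℵ_ ((n : Ordinal.{0}) + 3)).ord)
    (hmono : ∀ a b, a < b → ∀ᶠ n in atTop, h a n < h b n)
    (hcof : ∀ g : ∀ n, K n, ∃ b, ∀ᶠ n in atTop, g n < h b n)
    (Y : Set (RS h)) (hY : #Y ≤ ℵ₁) : ∃ t : RS h, ∀ y ∈ Y, y < t := by
  have hb : ∀ n, ∃ g : K n, ∀ y ∈ Y, y.1 n < g := by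
    intro n
    obtain ⟨g, hg⟩ := KM.exists_bound (rs_bdd_regular n) (hK n) ((fun y : RS h => y.1 n) '' Y)
      ((Cardinal.mk_image_le.trans hY).trans_lt (rs_bdd_lt n))
    exact ⟨g, fun y hy => hg _ ⟨y, hy, rfl⟩⟩
  choose g hg using hb
  obtain ⟨b, hb⟩ := hcof g
  refine ⟨⟨fun n => max (h b n) (g n), b, fun n => le_max_left _ _, ?_⟩, ?_⟩
  · filter_upwards [hb] with n hn
    exact max_eq_left hn.le
  · intro y hy
    refine lt_of_le_of_ne (fun n => (hg n y hy).le.trans (le_max_right _ _)) ?_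
    intro he
    have h0 := congrFun (congrArg Subtype.val he) 0
    exact absurd ((hg 0 y hy).trans_le (le_max_right (h b 0) (g 0))) (by
      rw [← show y.1 0 = max (h b 0) (g 0) from h0]; exact lt_irrefl _)

/-- The value at `i` is unbounded. -/
theorem rs_unb (hK : ∀ n, Ordinal.type (fun a b : K n => a < b) = (ℵ_ ((n : Ordinal.{0}) + 3)).ord)
    (hcof : ∀ g : ∀ n, K n, ∃ b, ∀ᶠ n in atTop, g n < h b n) (i : ℕ) (a : K i) :
    ∃ s : RS h, a < s.1 i := by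
  have hb : ∀ n, ∃ g : K n, ∀ y ∈ {x : K n | ∃ e : i = n, e ▸ a = x}, y < g := by
    intro n
    refine KM.exists_bound (rs_bdd_regular n) (hK n) _ ?_
    have hs : ({x : K n | ∃ e : i = n, e ▸ a = x}).Subsingleton := by
      rintro x ⟨e, rfl⟩ y ⟨e', rfl⟩
      rfl
    refine lt_of_le_of_lt ?_ (rs_bdd_lt n)
    exact (Cardinal.mk_le_one_iff_set_subsingleton.2 hs).trans
      (Cardinal.one_lt_aleph0.le.trans (Cardinal.aleph0_le_aleph 1))
  choose g hg using hb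
  obtain ⟨b, hb⟩ := hcof g
  refine ⟨⟨fun n => max (h b n) (g n), b, fun n => le_max_left _ _, ?_⟩, ?_⟩
  · filter_upwards [hb] with n hn
    exact max_eq_left hn.le
  · exact (hg i a ⟨rfl, rfl⟩).trans_le (le_max_right _ _)

end Pool.Agent.HFC
end

section

set_option linter.unusedSectionVars false
set_option linter.unusedVariables false

namespace Pool.Agent.HFZ

open Set Cardinal Pool.Agent.HF

/-- Every subset of `R` has a countable coinitial subset, the set of its minimal elements: if there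
were uncountably many minimal elements, then there would be an injective function from `Ω` to the
minimal elements (recursion along `Ω`, which has countable initial segments), contradicting
`anti`. -/
theorem coinitial {Ω R : Type} [LinearOrder Ω] [WellFoundedLT Ω] [PartialOrder R]
    [WellFoundedLT R] (seg : ∀ ξ : Ω, ∃ g : ℕ → Ω, ∀ η < ξ, ∃ n, g n = η)
    (anti : ∀ f : Ω → R, ∃ ξ η, ξ ≠ η ∧ f ξ ≤ f η) (A : Set R) :
    ∃ A₀ ⊆ A, A₀.Countable ∧ ∀ a ∈ A, ∃ b ∈ A₀, b ≤ a := by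
  classical
  set M : Set R := {a | a ∈ A ∧ ∀ b ∈ A, b ≤ a → b = a} with hMdef
  refine ⟨M, fun a h => h.1, ?_, ?_⟩
  · by_contra hM
    have hex : ∀ ξ : Ω, ∀ ih : (∀ η, η < ξ → R), ∃ m ∈ M, ∀ η (h : η < ξ), ih η h ≠ m := by
      intro ξ ih
      by_contra hcon
      push Not at hcon
      apply hM
      obtain ⟨g, hg⟩ := seg ξ
      have hsub : M ⊆ ⋃ n, {m | ∃ h : g n < ξ, ih (g n) h = m} := by
        intro m hm
        obtain ⟨η, h, hη⟩ := hcon m hm
        obtain ⟨n, rfl⟩ := hg η h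
        exact mem_iUnion.2 ⟨n, h, hη⟩
      refine Set.Countable.mono hsub (Set.countable_iUnion fun n => ?_)
      refine Set.Subsingleton.countable ?_
      rintro a ⟨h, rfl⟩ b ⟨h', rfl⟩
      rfl
    choose F hF1 hF2 using hex
    let f : Ω → R := WellFounded.fix (wellFounded_lt : WellFounded (fun a b : Ω => a < b)) F
    have hf : ∀ ξ, f ξ = F ξ (fun η _ => f η) := fun ξ => WellFounded.fix_eq _ _ _
    have hfM : ∀ ξ, f ξ ∈ M := by
      intro ξ
      rw [hf]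
      exact hF1 _ _
    have hinj : ∀ η ξ, η < ξ → f η ≠ f ξ := by
      intro η ξ h
      rw [hf ξ]
      exact hF2 ξ (fun η _ => f η) η h
    obtain ⟨ξ, η, hne, hle⟩ := anti f
    have h1 := (hfM η).2 _ (hfM ξ).1 hle
    rcases lt_or_gt_of_ne hne with h | h
    · exact hinj _ _ h h1
    · exact hinj _ _ h h1.symm
  · intro a ha
    have hwf : WellFounded (fun a b : R => a < b) := wellFounded_lt
    obtain ⟨m, ⟨hmA, hma⟩, hmin⟩ := hwf.has_min {b | b ∈ A ∧ b ≤ a} ⟨a, ha, le_rfl⟩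
    refine ⟨m, ⟨hmA, ?_⟩, hma⟩
    intro b hb hle
    by_contra hcon
    exact hmin b ⟨hb, hle.trans hma⟩ (lt_of_le_of_ne hle hcon)

theorem card_facts_type {K : Type} [LinearOrder K] [WellFoundedLT K]
    (reg : ∀ a, ∀ g : K → K, ∃ b, ∀ x < a, g x < b) :
    Ordinal.type (fun a b : K => a < b) = (#K).ord := by
  by_contra hne
  have hlt : (#K).ord < Ordinal.type (fun a b : K => a < b) :=
    lt_of_le_of_ne (Cardinal.ord_le_type _) (Ne.symm hne)
  obtain ⟨a, ha⟩ := Ordinal.typein_surj _ hlt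
  have h1 : #{x : K // x < a} = #K := by
    have h2 := congrArg Ordinal.card ha
    rw [Ordinal.card_typein, Cardinal.card_ord] at h2
    exact h2
  obtain ⟨e⟩ := Cardinal.eq.1 h1
  classical
  obtain ⟨b, hb⟩ := reg a (fun x => if h : x < a then e ⟨x, h⟩ else a)
  have h3 := hb (e.symm b).1 (e.symm b).2
  rw [dif_pos (e.symm b).2] at h3
  have h4 : e ⟨(e.symm b).1, (e.symm b).2⟩ = b := e.apply_symm_apply b
  rw [h4] at h3
  exact lt_irrefl _ h3

theorem card_facts_surj {A B : Type} [LinearOrder B] (hB : Nonempty B)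
    (h : ∀ g : A → B, ∃ b, ∀ x, g x < b) : #A < #B := by
  by_contra hcon
  have h1 : #B ≤ #A := not_lt.1 hcon
  obtain ⟨e⟩ := Cardinal.le_def _ _ |>.1 h1
  obtain ⟨b, hb⟩ := h (Function.invFun e)
  have h2 := hb (e b)
  rw [Function.leftInverse_invFun e.injective b] at h2
  exact lt_irrefl _ h2

theorem card_facts_reg {K : Type} [LinearOrder K] [WellFoundedLT K]
    (reg : ∀ a, ∀ g : K → K, ∃ b, ∀ x < a, g x < b) (hinf : ℵ₀ ≤ #K) : (#K).IsRegular := by
  refine ⟨hinf, ?_⟩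
  have htype := card_facts_type reg
  rw [← htype, Ordinal.cof_type, Order.le_cof_iff]
  intro S hS
  by_contra hcon
  have hlt : #S < #K := not_le.1 hcon
  have h1 : (#S).ord < Ordinal.type (fun a b : K => a < b) := by
    rw [htype]
    exact Cardinal.ord_lt_ord.2 hlt
  obtain ⟨a, ha⟩ := Ordinal.typein_surj _ h1
  have h2 : #{x : K // x < a} = #S := by
    have h2 := congrArg Ordinal.card ha
    rw [Ordinal.card_typein, Cardinal.card_ord] at h2
    exact h2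
  obtain ⟨e⟩ := Cardinal.eq.1 h2
  classical
  obtain ⟨b, hb⟩ := reg a (fun x => if h : x < a then (e ⟨x, h⟩ : K) else a)
  obtain ⟨s, hs, hbs⟩ := hS b
  have h3 := hb (e.symm ⟨s, hs⟩).1 (e.symm ⟨s, hs⟩).2
  rw [dif_pos (e.symm ⟨s, hs⟩).2] at h3
  have h4 : e ⟨(e.symm ⟨s, hs⟩).1, (e.symm ⟨s, hs⟩).2⟩ = ⟨s, hs⟩ := e.apply_symm_apply _
  rw [h4] at h3
  exact lt_irrefl _ (h3.trans_le hbs)

/-- The order types of the `K i` are strictly increasing regular uncountable cardinals.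
(`K i` is nonempty since `R` is; an unbounded subset `Z` of `K i` with `#Z < #(K i)` would be the
image of an initial segment of `K i`; similarly if `type (K i) > (#(K i)).ord`.) -/
theorem card_facts {K : ℕ → Type} [∀ i, LinearOrder (K i)] [∀ i, WellFoundedLT (K i)]
    (hne : ∀ i, Nonempty (K i))
    (unc : ∀ g : ℕ → K 0, ∃ b, ∀ n, g n < b)
    (reg : ∀ i a, ∀ g : K i → K i, ∃ b, ∀ x < a, g x < b)
    (incr : ∀ i, ∀ g : K i → K (i + 1), ∃ b, ∀ x, g x < b) :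
    (∀ i, (#(K i)).IsRegular) ∧ ℵ₀ < #(K 0) ∧ StrictMono (fun i => #(K i)) ∧
      ∀ i, Ordinal.type (fun a b : K i => a < b) = (#(K i)).ord := by
  have h0 : ℵ₀ < #(K 0) := by
    have h := card_facts_surj (hne 0) unc
    rwa [Cardinal.mk_nat] at h
  have hmono : StrictMono (fun i => #(K i)) :=
    strictMono_nat_of_lt_succ fun i => card_facts_surj (hne (i + 1)) (incr i)
  refine ⟨fun i => card_facts_reg (reg i) ?_, h0, hmono, fun i => card_facts_type (reg i)⟩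
  exact h0.le.trans (hmono.monotone (Nat.zero_le i))

end Pool.Agent.HFZ
end

section

set_option linter.unusedSectionVars false
set_option linter.unusedVariables false

/-!
# The meager sets coded by pairs of reals
-/

namespace Pool.Agent.HFZ

open Set Pool.Agent.HF Pool.Agent.MP_a8a7e3

/-- the point of the Cantor space given by a sequence of truth values -/
def toC (x : ℕ → Bool) : C := fun n => if x n then 1 else 0

/-- the meager set coded by `(c, d)` -/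
def MF (c : ℕ → Bool) (d : ℕ → ℕ) : Set C :=
  {x | ∃ N, ∀ n, N ≤ n → ∃ j, n ≤ j ∧ j ≤ n + d n ∧ x j ≠ toC c j}

/-- one of the closed pieces of `MF c d` -/
def mf_piece (c : ℕ → Bool) (d : ℕ → ℕ) (N : ℕ) : Set C :=
  {x | ∀ n, N ≤ n → ∃ j, n ≤ j ∧ j ≤ n + d n ∧ x j ≠ toC c j}

theorem mf_eq (c : ℕ → Bool) (d : ℕ → ℕ) : MF c d = ⋃ N, mf_piece c d N := by
  ext x
  simp only [MF, mf_piece, mem_iUnion, mem_ofPred_eq]

theorem mf_closed (c : ℕ → Bool) (d : ℕ → ℕ) (N : ℕ) : IsClosed (mf_piece c d N) := by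
  have h : mf_piece c d N =
      ⋂ n, ⋂ (_ : N ≤ n), ⋃ j ∈ Set.Icc n (n + d n), {x : C | x j ≠ toC c j} := by
    ext x
    simp only [mf_piece, mem_ofPred_eq, mem_iInter, mem_iUnion, mem_Icc, exists_prop, and_assoc]
  rw [h]
  refine isClosed_iInter (fun n => isClosed_iInter (fun _ => ?_))
  refine (Set.finite_Icc n (n + d n)).isClosed_biUnion (fun j _ => ?_)
  have h1 : Continuous (fun x : C => x j) := continuous_apply j
  exact (isClosed_discrete {t : Fin 2 | t ≠ toC c j}).preimage h1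

theorem mf_nwd (c : ℕ → Bool) (d : ℕ → ℕ) (N : ℕ) : IsNowhereDense (mf_piece c d N) := by
  rw [(mf_closed c d N).isNowhereDense_iff, ← Set.compl_univ_iff, ← closure_compl,
    Set.eq_univ_iff_forall]
  intro x
  refine mem_closure_of_tendsto (f := fun m : ℕ => fun n : ℕ => if n < m then x n else toC c n)
    (b := Filter.atTop) ?_ ?_
  · rw [tendsto_pi_nhds]
    intro n
    apply tendsto_const_nhds.congr'
    filter_upwards [Filter.eventually_gt_atTop n] with m hm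
    simp [hm]
  · refine Filter.Eventually.of_forall (fun m h => ?_)
    obtain ⟨j, h1, h2, h3⟩ := h (max N m) (le_max_left _ _)
    have h4 : ¬ j < m := not_lt.2 ((le_max_right _ _).trans h1)
    simp [h4] at h3

theorem mf_sigma2 (c : ℕ → Bool) (d : ℕ → ℕ) : IsSigma2 (MF c d) :=
  ⟨mf_piece c d, mf_closed c d, mf_eq c d⟩

theorem mf_meagre (c : ℕ → Bool) (d : ℕ → ℕ) : IsMeagre (MF c d) := by
  rw [mf_eq]
  exact isMeagre_iUnion (fun N => (mf_nwd c d N).isMeagre)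

theorem mf_subset {y : ℕ → Bool} {e : ℕ → ℕ} {c : ℕ → Bool} {d : ℕ → ℕ} (h : Tri y e c d) :
    MF y e ⊆ MF c d := by
  obtain ⟨N', hN'⟩ := h
  rintro x ⟨N, hN⟩
  refine ⟨max N N', fun n hn => ?_⟩
  obtain ⟨k, hk1, hk2, hk3⟩ := hN' n (le_trans (le_max_right _ _) hn)
  obtain ⟨j, hj1, hj2, hj3⟩ := hN k (le_trans (le_trans (le_max_left _ _) hn) hk1)
  refine ⟨j, hk1.trans hj1, by omega, ?_⟩
  have h1 : toC c j = toC y j := by
    unfold toC
    rw [hk3 j hj1 hj2]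
  rw [h1]
  exact hj3

theorem mf_cofinal_nbhd {U : Set C} (hU : IsOpen U) {z : C} (hz : z ∈ U) :
    ∃ N, ∀ x : C, (∀ i, i < N → x i = z i) → x ∈ U := by
  obtain ⟨I, u, h1, h2⟩ := isOpen_pi_iff.1 hU z hz
  refine ⟨I.sup id + 1, fun x hx => h2 fun i hi => ?_⟩
  rw [hx i (Nat.lt_succ_of_le (Finset.le_sup (f := id) hi))]
  exact (h1 i hi).2

theorem mf_cofinal_step {U : Set C} (hU : IsOpen U) (hd : Dense U) (m : ℕ)
    (S : Finset (Fin m → Fin 2)) : ∃ (m' : ℕ) (t : C), m < m' ∧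
      ∀ x : C, (∃ s ∈ S, ∀ i : Fin m, x i = s i) → (∀ j, m ≤ j → j < m' → x j = t j) → x ∈ U := by
  classical
  induction S using Finset.induction_on with
  | empty => exact ⟨m + 1, fun _ => 0, Nat.lt_succ_self m, fun x hx => by simp at hx⟩
  | insert s S hs ih =>
    obtain ⟨m', t, hm, h⟩ := ih
    let w : C := fun j => if h : j < m then s ⟨j, h⟩ else t j
    have hopen : IsOpen ((Finset.range m' : Set ℕ).pi (fun i => ({w i} : Set (Fin 2)))) :=
      isOpen_set_pi (Finset.finite_toSet _) (fun i _ => isOpen_discrete _)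
    obtain ⟨z, hz1, hz2⟩ := hd.inter_open_nonempty _ hopen ⟨w, fun i _ => rfl⟩
    obtain ⟨N, hN⟩ := mf_cofinal_nbhd hU hz2
    have hzw : ∀ j, j < m' → z j = w j := fun j hj => hz1 j (by simpa using hj)
    refine ⟨max m' N, z, lt_of_lt_of_le hm (le_max_left _ _), fun x hx hxz => ?_⟩
    obtain ⟨s', hs', hx⟩ := hx
    rcases Finset.mem_insert.1 hs' with rfl | hs'
    · refine hN x fun i hi => ?_
      by_cases him : i < m
      · rw [hzw i (him.trans hm)]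
        simp only [w, him, dif_pos]
        exact hx ⟨i, him⟩
      · exact hxz i (not_lt.1 him) (lt_of_lt_of_le hi (le_max_right _ _))
    · refine h x ⟨s', hs', hx⟩ fun j hj hj' => ?_
      rw [hxz j hj (lt_of_lt_of_le hj' (le_max_left _ _)), hzw j hj']
      simp only [w, not_lt.2 hj, dif_neg, not_false_eq_true]

theorem mf_cofinal_step' {U : Set C} (hU : IsOpen U) (hd : Dense U) (m : ℕ) :
    ∃ (m' : ℕ) (t : C), m < m' ∧
      ∀ x : C, (∀ j, m ≤ j → j < m' → x j = t j) → x ∈ U := by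
  obtain ⟨m', t, h1, h2⟩ := mf_cofinal_step hU hd m Finset.univ
  exact ⟨m', t, h1, fun x hx => h2 x ⟨fun i => x i, Finset.mem_univ _, fun i => rfl⟩ hx⟩

/-- Every meager set is contained in one of these sets.
Let `A ⊆ ⋃ n, E n` with `E n` closed nowhere dense and increasing.  Build `0 = a 0 < a 1 < …` and `y`
such that for every `s : 2^(a n)` the sequence `s ⌢ (y restricted to [a n, a (n+1)))` has no
extension in `E n` (finitely many `s`, extend step by step); `e k` is such that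
`[k, k + e k]` contains some `[a n, a (n+1))` with `a n` the least `≥ k`. -/
theorem mf_cofinal {A : Set C} (hA : IsMeagre A) : ∃ y e, A ⊆ MF y e := by
  classical
  obtain ⟨S, hS1, hS2, hS3, hS4⟩ := mem_residual_iff.1 hA
  obtain ⟨g, hg⟩ := (hS3.insert univ).exists_eq_range (Set.insert_nonempty _ _)
  have hg1 : ∀ n, IsOpen (g n) := fun n => by
    have : g n ∈ insert univ S := hg ▸ ⟨n, rfl⟩
    rcases this with h | h
    · rw [h]; exact isOpen_univ
    · exact hS1 _ h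
  have hg2 : ∀ n, Dense (g n) := fun n => by
    have : g n ∈ insert univ S := hg ▸ ⟨n, rfl⟩
    rcases this with h | h
    · rw [h]; exact dense_univ
    · exact hS2 _ h
  let V : ℕ → Set C := fun n => Nat.rec (g 0) (fun k W => W ∩ g (k + 1)) n
  have hVs : ∀ n, V (n + 1) = V n ∩ g (n + 1) := fun n => rfl
  have hV1 : ∀ n, IsOpen (V n) := fun n => by
    induction n with
    | zero => exact hg1 0
    | succ n ih => rw [hVs]; exact ih.inter (hg1 _)
  have hV2 : ∀ n, Dense (V n) := fun n => by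
    induction n with
    | zero => exact hg2 0
    | succ n ih => rw [hVs]; exact ih.inter_of_isOpen_left (hg2 _) (hV1 n)
  have hVg : ∀ n, V n ⊆ g n := fun n => by
    cases n with
    | zero => exact subset_rfl
    | succ n => rw [hVs]; exact inter_subset_right
  have hVanti : ∀ n m, n ≤ m → V m ⊆ V n := fun n m h => by
    induction m, h using Nat.le_induction with
    | base => exact subset_rfl
    | succ m _ ih => rw [hVs]; exact inter_subset_left.trans ih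
  have hst : ∀ n m : ℕ, ∃ (m' : ℕ) (t : C), m < m' ∧
      ∀ x : C, (∀ j, m ≤ j → j < m' → x j = t j) → x ∈ V n := fun n m =>
    mf_cofinal_step' (hV1 n) (hV2 n) m
  choose nx bl h1 h2 using hst
  let a : ℕ → ℕ := fun n => Nat.rec 0 (fun k m => nx k m) n
  have has : ∀ n, a (n + 1) = nx n (a n) := fun n => rfl
  have hlt : ∀ n, a n < a (n + 1) := fun n => by rw [has]; exact h1 _ _
  have hmono : StrictMono a := strictMono_nat_of_lt_succ hlt
  have hid : ∀ n, n ≤ a n := hmono.id_le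
  have hex : ∀ j, ∃ n, j < a (n + 1) := fun j => ⟨j, lt_of_lt_of_le (Nat.lt_succ_self j) (hid _)⟩
  let ix : ℕ → ℕ := fun j => Nat.find (hex j)
  have hix : ∀ n j, a n ≤ j → j < a (n + 1) → ix j = n := fun n j hj hj' => by
    refine (Nat.find_eq_iff (hex j)).2 ⟨hj', fun k hk => ?_⟩
    rw [not_lt]
    exact (hmono.monotone (Nat.succ_le_of_lt hk)).trans hj
  refine ⟨fun j => decide (bl (ix j) (a (ix j)) j = 1), fun k => a (k + 1), fun x hx => ?_⟩
  have hx' : ∃ M, x ∉ g M := by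
    by_contra hcon
    push Not at hcon
    have : x ∈ ⋂₀ S := fun t ht => by
      have : t ∈ range g := hg ▸ Or.inr ht
      obtain ⟨n, rfl⟩ := this
      exact hcon n
    exact hS4 this hx
  obtain ⟨M, hM⟩ := hx'
  refine ⟨M, fun k hk => ?_⟩
  by_contra hcon
  push Not at hcon
  have hk' : x ∈ V k := by
    refine h2 k (a k) x fun j hj hj' => ?_
    rw [← has] at hj'
    rw [hcon j ((hid k).trans hj) (by omega)]
    simp only [toC, hix k j hj hj', decide_eq_true_eq]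
    generalize bl k (a k) j = b
    fin_cases b <;> simp
  exact hM (hVg M (hVanti M k hk hk'))

/-- the complementary point -/
theorem compl_mem (x : ℕ → Bool) (d : ℕ → ℕ) : toC (fun j => !(x j)) ∈ MF x d := by
  refine ⟨0, fun n _ => ⟨n, le_rfl, by omega, ?_⟩⟩
  unfold toC
  rcases h : x n with _ | _ <;> simp [h]

theorem compl_notMem {x c : ℕ → Bool} {d : ℕ → ℕ} (h : Opp x c d) :
    toC (fun j => !(x j)) ∉ MF c d := by
  rintro ⟨N, hN⟩
  obtain ⟨n, hn, hx⟩ := h N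
  obtain ⟨j, hj1, hj2, hj3⟩ := hN n hn
  apply hj3
  unfold toC
  have h1 := hx j hj1 hj2
  simp [h1]

end Pool.Agent.HFZ
end

section

set_option linter.unusedSectionVars false
set_option linter.unusedVariables false

/-!
# Ranks and transfer to the real line
-/

namespace Pool.Agent.HFZ

open Set Cardinal Pool.Agent.HF Pool.Agent.MP_a8a7e3

/-- The rank given by `π : R → Y`, `Y` a well-order of type a cardinal `κ`: the rank of `A` is the
least type of `π t` such that `A ⊆ F t` (the infimum of a set of ordinals). -/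
theorem exists_rank {R Y : Type} [PartialOrder R] [LinearOrder Y] [WellFoundedLT Y]
    {κ : Cardinal.{0}} (hY : Ordinal.type (fun a b : Y => a < b) = κ.ord) (ρ : R → Y)
    (mono : ∀ s t, s ≤ t → ρ s ≤ ρ t) (unb : ∀ a, ∃ s, a < ρ s)
    (dir : ∀ a, ∀ g : ℕ → R, (∀ n, ρ (g n) ≤ a) → ∃ t, ρ t ≤ a ∧ ∀ n, g n ≤ t)
    (F : R → Set C) (hF : ∀ t, IsMeagre (F t)) (hmono : ∀ s t, s ≤ t → F s ⊆ F t)
    (hcof : ∀ A, IsMeagre A → ∃ t, A ⊆ F t) (hsep : ∀ s t, ¬ s ≤ t → ¬ F s ⊆ F t) :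
    ∃ r : Set C → Ordinal.{0}, IsRank κ r ∧ ∀ α < κ.ord, ∃ A, IsMeagre A ∧ α < r A := by
  have hmem : ∀ A, IsMeagre A → ∃ t, A ⊆ F t ∧ Ordinal.typein (fun a b : Y => a < b) (ρ t) =
      sInf {o | ∃ t, A ⊆ F t ∧ Ordinal.typein (fun a b : Y => a < b) (ρ t) = o} := by
    intro A hA
    obtain ⟨t, ht⟩ := hcof A hA
    exact csInf_mem (s := {o | ∃ t, A ⊆ F t ∧ Ordinal.typein (fun a b : Y => a < b) (ρ t) = o})
      ⟨_, t, ht, rfl⟩
  have hle : ∀ A t, A ⊆ F t →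
      sInf {o | ∃ t, A ⊆ F t ∧ Ordinal.typein (fun a b : Y => a < b) (ρ t) = o} ≤
        Ordinal.typein (fun a b : Y => a < b) (ρ t) := fun A t h =>
    csInf_le' ⟨t, h, rfl⟩
  refine ⟨fun A => sInf {o | ∃ t, A ⊆ F t ∧
    Ordinal.typein (fun a b : Y => a < b) (ρ t) = o}, ⟨?_, ?_, ?_⟩, ?_⟩
  · intro A B hB hAB
    obtain ⟨t, ht, h⟩ := hmem B hB
    show _ ≤ sInf {o | ∃ t, B ⊆ F t ∧ Ordinal.typein (fun a b : Y => a < b) (ρ t) = o}
    rw [← h]
    exact hle A t (hAB.trans ht)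
  · intro A hA
    obtain ⟨t, ht, h⟩ := hmem A hA
    show sInf {o | ∃ t, A ⊆ F t ∧ Ordinal.typein (fun a b : Y => a < b) (ρ t) = o} < _
    rw [← h, ← hY]
    exact Ordinal.typein_lt_type _ _
  · intro A α hA hα
    rcases le_or_gt κ.ord α with h1 | h1
    · obtain ⟨t, ht, h⟩ := hmem _ (isMeagre_iUnion hA)
      refine le_trans (le_of_lt ?_) h1
      show sInf {o | ∃ t, (⋃ n, A n) ⊆ F t ∧
        Ordinal.typein (fun a b : Y => a < b) (ρ t) = o} < _
      rw [← h, ← hY]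
      exact Ordinal.typein_lt_type _ _
    · rw [← hY] at h1
      obtain ⟨a, ha⟩ := Ordinal.typein_surj _ h1
      choose g hg1 hg2 using fun n => hmem (A n) (hA n)
      obtain ⟨t, ht1, ht2⟩ := dir a g (fun n => by
        have h2 : Ordinal.typein (fun a b : Y => a < b) (ρ (g n)) ≤
            Ordinal.typein (fun a b : Y => a < b) a := by
          rw [hg2 n, ha]
          exact hα n
        exact not_lt.1 ((Ordinal.typein_le_typein _).1 h2))
      refine le_trans (hle _ t (iUnion_subset fun n => (hg1 n).trans (hmono _ _ (ht2 n)))) ?_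
      rw [← ha]
      exact (Ordinal.typein_le_typein _).2 (not_lt.2 ht1)
  · intro α hα
    rw [← hY] at hα
    obtain ⟨a, ha⟩ := Ordinal.typein_surj _ hα
    obtain ⟨s, hs⟩ := unb a
    refine ⟨F s, hF s, ?_⟩
    obtain ⟨t, ht, h⟩ := hmem _ (hF s)
    show α < sInf {o | ∃ t, F s ⊆ F t ∧ Ordinal.typein (fun a b : Y => a < b) (ρ t) = o}
    rw [← h, ← ha]
    have hst : s ≤ t := by
      by_contra hcon
      exact hsep s t hcon ht
    exact (Ordinal.typein_lt_typein _).2 (hs.trans_le (mono s t hst))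

/-- Transfer of ranks: `r' A = r (e ⁻¹' A)` for `e` from `exists_digit_map`. -/
theorem rank_to_real {κ : Cardinal.{0}} {r : Set C → Ordinal.{0}} (hr : IsRank κ r)
    (hu : ∀ α < κ.ord, ∃ A, IsMeagre A ∧ α < r A) :
    ∃ r' : Set ℝ → Ordinal.{0}, IsRank κ r' ∧ ∀ α < κ.ord, ∃ A, IsMeagre A ∧ α < r' A := by
  obtain ⟨e, he, h1, h2, h3⟩ := exists_digit_map
  refine ⟨fun A => r (e ⁻¹' A), ⟨?_, ?_, ?_⟩, ?_⟩
  · intro A B hB hAB
    exact hr.mono _ _ (h2 B hB) (preimage_mono hAB)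
  · intro A hA
    exact hr.lt _ (h2 A hA)
  · intro A α hA hα
    show r (e ⁻¹' ⋃ n, A n) ≤ α
    rw [preimage_iUnion]
    exact hr.iUnion _ α (fun n => h2 _ (hA n)) hα
  · intro α hα
    obtain ⟨A, hA, hαA⟩ := hu α hα
    refine ⟨e '' A, h1 A hA, lt_of_lt_of_le hαA ?_⟩
    exact hr.mono _ _ (h2 _ (h1 A hA)) (subset_preimage_image e A)

/-- Transfer of cofinal families: `G t = ⋃ q : ℚ, q + e '' F t`. -/
theorem family_to_real {R : Type} [PartialOrder R] (F : R → Set C) (hF : ∀ t, IsSigma2 (F t))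
    (hFm : ∀ t, IsMeagre (F t)) (hmono : ∀ s t, s ≤ t → F s ⊆ F t)
    (hcof : ∀ A, IsMeagre A → ∃ t, A ⊆ F t) :
    ∃ G : R → Set ℝ, (∀ t, IsSigma2 (G t)) ∧ (∀ t, IsMeagre (G t)) ∧ Monotone G ∧
      ∀ A, IsMeagre A → ∃ t, A ⊆ G t := by
  obtain ⟨e, he, h1, h2, h3⟩ := exists_digit_map
  refine ⟨fun t => ⋃ q : ℚ, (fun x => (q : ℝ) + x) '' (e '' F t), ?_, ?_, ?_, ?_⟩
  · intro t
    obtain ⟨E, hE, hFE⟩ := hF t
    obtain ⟨f, hf⟩ := exists_surjective_nat (ℚ × ℕ)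
    refine ⟨fun n => (fun x => ((f n).1 : ℝ) + x) '' (e '' E (f n).2), fun n => ?_, ?_⟩
    · exact (((hE _).isCompact.image he).image (continuous_const.add continuous_id)).isClosed
    · beta_reduce
      rw [hFE]
      ext x
      constructor
      · intro hx
        obtain ⟨q, hx⟩ := mem_iUnion.1 hx
        obtain ⟨y, ⟨z, hz, rfl⟩, rfl⟩ := hx
        obtain ⟨m, hm⟩ := mem_iUnion.1 hz
        obtain ⟨n, hn⟩ := hf (q, m)
        refine mem_iUnion.2 ⟨n, e z, ⟨z, ?_, rfl⟩, ?_⟩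
        · rw [hn]; exact hm
        · rw [hn]
      · intro hx
        obtain ⟨n, y, ⟨z, hz, rfl⟩, rfl⟩ := mem_iUnion.1 hx
        exact mem_iUnion.2 ⟨(f n).1, e z, ⟨z, mem_iUnion.2 ⟨(f n).2, hz⟩, rfl⟩, rfl⟩
  · intro t
    exact isMeagre_iUnion fun q => T3_translate q (h1 _ (hFm t))
  · intro s t hst
    exact iUnion_mono fun q => image_mono (image_mono (hmono s t hst))
  · intro A hA
    have hAm : IsMeagre (⋃ q : ℚ, (fun x => (q : ℝ) + x) '' A) :=
      isMeagre_iUnion fun q => T3_translate q hA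
    obtain ⟨t, ht⟩ := hcof _ (h2 _ hAm)
    refine ⟨t, ?_⟩
    obtain ⟨a, b, hab, hO'⟩ := h3 univ isOpen_univ univ_nonempty
    intro x hx
    obtain ⟨q, hq1, hq2⟩ := exists_rat_btwn (show a - x < b - x by linarith)
    obtain ⟨z, hzO, hz⟩ := hO' (show (q : ℝ) + x ∈ Ioo a b from ⟨by linarith, by linarith⟩)
    rw [mem_iUnion]
    refine ⟨-q, e z, ⟨z, ht ?_, rfl⟩, ?_⟩
    · rw [mem_preimage, mem_iUnion]
      exact ⟨q, x, hx, hz.symm⟩
    · rw [hz]
      push_cast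
      ring

end Pool.Agent.HFZ
end
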